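import Mathlib

set_option autoImplicit false

namespace Pool.Agent.Lib.A7

open Finset

/-- generating series of the s-th powers -/
noncomputable def Phi (s : ℕ) : PowerSeries ℤ :=
  open Classical in PowerSeries.mk (fun m => if ∃ n, n ^ s = m then (1 : ℤ) else 0)

/-- number of representations of m by k s-th powers (ordered) -/
noncomputable def E (s k m : ℕ) : ℤ := PowerSeries.coeff m (Phi s ^ k)

/-- tuples with entries below Y and s-th power sum m -/
def tup (s k Y m : ℕ) : Finset (Fin k → ℕ) :=
  (Fintype.piFinset (fun _ => range Y)).filter (fun f => ∑ i, f i ^ s = m)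

lemma mem_tup {s k Y m : ℕ} {f : Fin k → ℕ} :
    f ∈ tup s k Y m ↔ (∀ i, f i < Y) ∧ ∑ i, f i ^ s = m := by
  simp [tup]

lemma lt_of_pow_lt {s a Y : ℕ} (h : a ^ s < Y ^ s) : a < Y := by
  by_contra h'
  push Not at h'
  exact absurd h (not_lt.mpr (Nat.pow_le_pow_left h' s))

lemma E_eq {s k Y m : ℕ} (hs : s ≠ 0) (hm : m < Y ^ s) : E s k m = (tup s k Y m).card := by
  classical
  set Q : PowerSeries ℤ := ∑ n ∈ range Y, PowerSeries.X ^ (n ^ s) with hQ
  have h1 : PowerSeries.X ^ (Y ^ s) ∣ Phi s - Q := by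
    rw [PowerSeries.X_pow_dvd_iff]
    intro j hj
    rw [map_sub, hQ, map_sum]
    simp only [PowerSeries.coeff_X_pow, Phi, PowerSeries.coeff_mk]
    by_cases hex : ∃ n, n ^ s = j
    · obtain ⟨n, hn⟩ := hex
      have hnY : n < Y := lt_of_pow_lt (s := s) (by rw [hn]; exact hj)
      rw [if_pos ⟨n, hn⟩, Finset.sum_eq_single n]
      · simp [hn]
      · intro b _ hb
        rw [if_neg]
        intro h
        apply hb
        have := h.symm.trans hn.symm
        exact Nat.pow_left_injective hs this
      · intro h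
        exact absurd (mem_range.mpr hnY) h
    · rw [if_neg hex, Finset.sum_eq_zero]
      · simp
      · intro b _
        rw [if_neg]
        intro h
        exact hex ⟨b, h.symm⟩
  have h2 : PowerSeries.X ^ (Y ^ s) ∣ Phi s ^ k - Q ^ k := h1.trans (sub_dvd_pow_sub_pow _ _ k)
  have h3 : PowerSeries.coeff m (Phi s ^ k) = PowerSeries.coeff m (Q ^ k) := by
    have := (PowerSeries.X_pow_dvd_iff.mp h2) m hm
    rw [map_sub] at this
    linarith
  have h4 : Q ^ k = ∑ f ∈ Fintype.piFinset (fun _ : Fin k => range Y),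
      PowerSeries.X ^ (∑ i, f i ^ s) := by
    have : Q ^ k = ∏ _i : Fin k, Q := by simp
    rw [this, hQ, Finset.prod_univ_sum]
    apply Finset.sum_congr rfl
    intro f _
    rw [← Finset.prod_pow_eq_pow_sum]
  rw [E, h3, h4, map_sum]
  simp only [PowerSeries.coeff_X_pow]
  rw [tup, Finset.card_filter]
  push_cast
  apply Finset.sum_congr rfl
  intro f _
  by_cases h : ∑ i, f i ^ s = m
  · simp [h]
  · have h' : ¬ m = ∑ i, f i ^ s := fun h'' => h h''.symm
    simp [h, h']

lemma lt_succ_pow {s : ℕ} (hs : s ≠ 0) (m : ℕ) : m < (m + 1) ^ s :=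
  lt_of_lt_of_le (Nat.lt_succ_self m) (Nat.le_self_pow hs _)

lemma E_nonneg {s k m : ℕ} (hs : s ≠ 0) : 0 ≤ E s k m := by
  rw [E_eq hs (lt_succ_pow hs m)]; positivity

lemma E_pos_iff {s k m : ℕ} (hs : s ≠ 0) : 0 < E s k m ↔ ∃ f : Fin k → ℕ, ∑ i, f i ^ s = m := by
  rw [E_eq hs (lt_succ_pow hs m)]
  constructor
  · intro h
    have : 0 < (tup s k (m + 1) m).card := by exact_mod_cast h
    obtain ⟨f, hf⟩ := Finset.card_pos.mp this
    exact ⟨f, (mem_tup.mp hf).2⟩
  · rintro ⟨f, hf⟩
    have : f ∈ tup s k (m + 1) m := by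
      rw [mem_tup]
      refine ⟨fun i => ?_, hf⟩
      have h1 : f i ^ s ≤ m := by
        rw [← hf]
        exact Finset.single_le_sum (f := fun i => f i ^ s) (fun _ _ => Nat.zero_le _) (mem_univ i)
      have h2 : f i ≤ f i ^ s := Nat.le_self_pow hs _
      omega
    have : 0 < (tup s k (m + 1) m).card := Finset.card_pos.mpr ⟨f, this⟩
    exact_mod_cast this

/-- adding one power -/
lemma E_pos_add {s k m : ℕ} (hs : s ≠ 0) (h : 0 < E s k m) (y : ℕ) : 0 < E s (k + 1) (m + y ^ s) := by
  rw [E_pos_iff hs] at h ⊢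
  obtain ⟨f, hf⟩ := h
  refine ⟨Fin.cons y f, ?_⟩
  rw [Fin.sum_univ_succ]
  simp only [Fin.cons_zero, Fin.cons_succ]
  omega

lemma E_pos_succ {s k m : ℕ} (hs : s ≠ 0) (h : 0 < E s k m) : 0 < E s (k + 1) m := by
  have := E_pos_add hs h 0
  simpa [hs] using this

lemma E_pos_mono {s k l m : ℕ} (hs : s ≠ 0) (hkl : k ≤ l) (h : 0 < E s k m) : 0 < E s l m := by
  induction l, hkl using Nat.le_induction with
  | base => exact h
  | succ n _ ih => exact E_pos_succ hs ih

lemma E_zero_of {s k l m : ℕ} (hs : s ≠ 0) (hkl : k ≤ l) (h : E s l m = 0) : E s k m = 0 := by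
  by_contra h0
  have h1 : 0 < E s k m := lt_of_le_of_ne (E_nonneg hs) (Ne.symm h0)
  have := E_pos_mono hs hkl h1
  omega

/-- all tuples below Y with power sum below Y^s -/
def allt (s k Y : ℕ) : Finset (Fin k → ℕ) :=
  (Fintype.piFinset (fun _ => range Y)).filter (fun f => ∑ i, f i ^ s < Y ^ s)

lemma mem_allt {s k Y : ℕ} {f : Fin k → ℕ} :
    f ∈ allt s k Y ↔ (∀ i, f i < Y) ∧ ∑ i, f i ^ s < Y ^ s := by
  simp [allt]

lemma sum_E {s k Y : ℕ} (hs : s ≠ 0) : ∑ m ∈ range (Y ^ s), E s k m = (allt s k Y).card := by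
  have h1 : ∀ m ∈ range (Y ^ s), E s k m = ((tup s k Y m).card : ℤ) := by
    intro m hm
    exact E_eq hs (mem_range.mp hm)
  rw [Finset.sum_congr rfl h1]
  rw [Finset.card_eq_sum_card_fiberwise (f := fun f : Fin k → ℕ => ∑ i, f i ^ s) (t := range (Y ^ s))]
  · push_cast
    apply Finset.sum_congr rfl
    intro m hm
    congr 2
    ext f
    simp only [mem_tup, mem_filter, mem_allt]
    constructor
    · rintro ⟨h1, h2⟩
      exact ⟨⟨h1, by rw [h2]; exact mem_range.mp hm⟩, h2⟩
    · rintro ⟨⟨h1, _⟩, h2⟩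
      exact ⟨h1, h2⟩
  · intro f hf
    simp only [Finset.mem_coe, mem_range]
    exact (mem_allt.mp hf).2

lemma allt_card_le (s k Y : ℕ) : (allt s k Y).card ≤ Y ^ k := by
  refine (Finset.card_filter_le _ _).trans ?_
  rw [Fintype.card_piFinset]
  simp

lemma sum_E_le {s k Y : ℕ} (hs : s ≠ 0) : ∑ m ∈ range (Y ^ s), E s k m ≤ (Y : ℤ) ^ k := by
  rw [sum_E hs]
  exact_mod_cast allt_card_le s k Y

/-- pointwise bound -/
lemma E_le {s k Y m : ℕ} (hs : s ≠ 0) (hm : m < Y ^ s) : E s (k + 1) m ≤ (Y : ℤ) ^ k := by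
  rw [E_eq hs hm]
  have : (tup s (k + 1) Y m).card ≤ (Fintype.piFinset (fun _ : Fin k => range Y)).card := by
    apply Finset.card_le_card_of_injOn (fun f => Fin.tail f)
    · intro f hf
      rw [Finset.mem_coe] at hf
      rw [Finset.mem_coe, Fintype.mem_piFinset]
      intro i
      rw [mem_range]
      exact (mem_tup.mp hf).1 _
    · intro f hf g hg hfg
      rw [Finset.mem_coe] at hf hg
      have hf' := (mem_tup.mp hf).2
      have hg' := (mem_tup.mp hg).2
      rw [Fin.sum_univ_succ] at hf' hg'
      have htail : ∀ i : Fin k, f i.succ = g i.succ := fun i => congrFun hfg i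
      have hsum : ∑ i : Fin k, f i.succ ^ s = ∑ i : Fin k, g i.succ ^ s :=
        Finset.sum_congr rfl (fun i _ => by rw [htail i])
      have h0 : f 0 ^ s = g 0 ^ s := by omega
      have h0' : f 0 = g 0 := Nat.pow_left_injective hs h0
      funext i
      refine Fin.cases h0' (fun j => htail j) i
  rw [Fintype.card_piFinset] at this
  simp at this
  exact_mod_cast this

/-- m is a sum of s-th powers of a non-injective tuple of length k -/
def NonInj (s k m : ℕ) : Prop := ∃ f : Fin k → ℕ, ¬ Function.Injective f ∧ ∑ i, f i ^ s = m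

/-- divisibility by k! away from the non-injective sums -/
lemma factorial_dvd {s k m : ℕ} (hs : s ≠ 0) (h : ¬ NonInj s k m) : (k.factorial : ℤ) ∣ E s k m := by
  classical
  rw [E_eq hs (lt_succ_pow hs m)]
  set S := tup s k (m + 1) m with hS
  set M := S.filter (fun f => StrictMono f) with hM
  have hinj : ∀ f ∈ S, Function.Injective f := by
    intro f hf
    by_contra hc
    exact h ⟨f, hc, (mem_tup.mp hf).2⟩
  have hcard : S.card = (M ×ˢ (univ : Finset (Equiv.Perm (Fin k)))).card := by
    symm
    apply Finset.card_bij (fun (p : (Fin k → ℕ) × Equiv.Perm (Fin k)) _ => p.1 ∘ p.2)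
    · rintro ⟨g, σ⟩ hp
      simp only [mem_product, hM, mem_filter] at hp
      have hg := mem_tup.mp hp.1.1
      rw [hS, mem_tup]
      refine ⟨fun i => hg.1 _, ?_⟩
      rw [← hg.2]
      exact Equiv.sum_comp σ (fun i => g i ^ s)
    · rintro ⟨g, σ⟩ hp ⟨g', σ'⟩ hp' heq
      simp only [mem_product, hM, mem_filter] at hp hp'
      simp only at heq
      have hr : Set.range g = Set.range g' := by
        have h1 : Set.range (g ∘ σ) = Set.range g := σ.surjective.range_comp g
        have h2 : Set.range (g' ∘ σ') = Set.range g' := σ'.surjective.range_comp g'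
        rw [← h1, ← h2, heq]
      have hgg : g = g' := (StrictMono.range_inj hp.1.2 hp'.1.2).mp hr
      subst hgg
      have hσ : σ = σ' := by
        ext i
        have := congrFun heq i
        simp only [Function.comp] at this
        exact congrArg Fin.val (hp.1.2.injective this)
      rw [hσ]
    · intro f hf
      refine ⟨(f ∘ Tuple.sort f, (Tuple.sort f)⁻¹), ?_, ?_⟩
      · simp only [mem_product, hM, mem_filter, mem_univ, and_true]
        have hf' := mem_tup.mp (hS ▸ hf)
        refine ⟨?_, ?_⟩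
        · rw [hS, mem_tup]
          refine ⟨fun i => hf'.1 _, ?_⟩
          rw [← hf'.2]
          exact Equiv.sum_comp (Tuple.sort f) (fun i => f i ^ s)
        · exact (Tuple.monotone_sort f).strictMono_of_injective
            ((hinj f hf).comp (Tuple.sort f).injective)
      · funext i
        simp
  rw [hcard, Finset.card_product, Finset.card_univ, Fintype.card_perm, Fintype.card_fin]
  push_cast
  exact dvd_mul_left _ _

open Classical in
/-- few non-injective sums -/
lemma card_nonInj_le {s k Y : ℕ} :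
    ((range (Y ^ s)).filter (fun m => NonInj s (k + 1) m)).card ≤ (k + 1) ^ 2 * Y ^ k := by
  set B : Finset (Fin (k + 1) → ℕ) :=
    (univ : Finset (Fin (k + 1) × Fin k)).biUnion (fun p =>
      (Fintype.piFinset (fun _ : Fin (k + 1) => range Y)).filter
        (fun f => f p.1 = f (p.1.succAbove p.2))) with hB
  have h1 : ((range (Y ^ s)).filter (fun m => NonInj s (k + 1) m)).card ≤ B.card := by
    have hsub : (range (Y ^ s)).filter (fun m => NonInj s (k + 1) m) ⊆
        B.image (fun f => ∑ i, f i ^ s) := by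
      intro m hm
      simp only [mem_filter, mem_range] at hm
      obtain ⟨hmY, f, hf, hfm⟩ := hm
      rw [mem_image]
      refine ⟨f, ?_, hfm⟩
      simp only [Function.Injective, not_forall] at hf
      obtain ⟨i, j, hij, hne⟩ := hf
      obtain ⟨l, hl⟩ := Fin.exists_succAbove_eq (x := j) (y := i) (fun h => hne h.symm)
      rw [hB, mem_biUnion]
      refine ⟨(i, l), mem_univ _, ?_⟩
      simp only [mem_filter, Fintype.mem_piFinset, mem_range]
      refine ⟨fun t => ?_, ?_⟩
      · apply lt_of_pow_lt (s := s)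
        refine lt_of_le_of_lt ?_ hmY
        rw [← hfm]
        exact Finset.single_le_sum (f := fun i => f i ^ s) (fun _ _ => Nat.zero_le _) (mem_univ t)
      · rw [hl]; exact hij
    exact (Finset.card_le_card hsub).trans Finset.card_image_le
  refine h1.trans ?_
  refine Finset.card_biUnion_le.trans ?_
  have h2 : ∀ p ∈ (univ : Finset (Fin (k + 1) × Fin k)),
      ((Fintype.piFinset (fun _ : Fin (k + 1) => range Y)).filter
        (fun f => f p.1 = f (p.1.succAbove p.2))).card ≤ Y ^ k := by
    rintro ⟨i, l⟩ _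
    have : ((Fintype.piFinset (fun _ : Fin (k + 1) => range Y)).filter
        (fun f => f i = f (i.succAbove l))).card ≤
        (Fintype.piFinset (fun _ : Fin k => range Y)).card := by
      apply Finset.card_le_card_of_injOn (fun f => fun j => f (i.succAbove j))
      · intro f hf
        simp only [Finset.coe_filter, Set.mem_ofPred_eq, Fintype.mem_piFinset, mem_range] at hf
        simp only [Finset.mem_coe, Fintype.mem_piFinset, mem_range]
        intro j
        exact hf.1 _
      · intro f hf g hg hfg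
        simp only [Finset.coe_filter, Set.mem_ofPred_eq, Fintype.mem_piFinset, mem_range] at hf hg
        have hj : ∀ j, f (i.succAbove j) = g (i.succAbove j) := fun j => congrFun hfg j
        funext t
        by_cases ht : t = i
        · rw [ht, hf.2, hg.2, hj]
        · obtain ⟨j, hj'⟩ := Fin.exists_succAbove_eq ht
          rw [← hj', hj]
    refine this.trans ?_
    rw [Fintype.card_piFinset]
    simp
  refine (Finset.sum_le_card_nsmul _ _ _ h2).trans ?_
  rw [Finset.card_univ, Fintype.card_prod, Fintype.card_fin, Fintype.card_fin, smul_eq_mul]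
  apply Nat.mul_le_mul_right
  nlinarith

end Pool.Agent.Lib.A7
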