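import Pool.Agent.Lib.MP_a7a9f5_nt.Final2

set_option autoImplicit false

namespace Pool.Agent.Lib.A7

open Finset

/-- consequence: the modulus never divides `d ^ j + 1` -/
theorem cor_plus_one {d s : ℕ} (hd : 2 ≤ d) (hs : 3 ≤ s) {P : Polynomial ℤ} (hP : P ≠ 0)
    (hdeg : P.natDegree ≤ s)
    (hroot : Polynomial.aeval (∑' n : ℕ, ((d : ℝ) ^ (n ^ s))⁻¹) P = 0)
    {k j : ℕ} (hj : 1 ≤ j) :
    ¬ (s.factorial : ℤ) * P.leadingCoeff ∣ ((d : ℤ) ^ j + 1) * (d : ℤ) ^ k := by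
  intro hdiv
  have hd' : (2 : ℝ) ≤ d := by exact_mod_cast hd
  have hd1 : (1 : ℝ) ≤ (d : ℝ) - 1 := by linarith
  set M : ℤ := (d : ℤ) ^ j + 1 with hM
  have hMpos : 0 < M := by positivity
  have hMR : (0 : ℝ) < M := by exact_mod_cast hMpos
  have hcop : IsCoprime M (d : ℤ) := by
    refine ⟨1, -(d : ℤ) ^ (j - 1), ?_⟩
    obtain ⟨t, rfl⟩ : ∃ t, j = t + 1 := ⟨j - 1, by omega⟩
    rw [hM, Nat.add_sub_cancel, pow_succ]
    ring
  obtain ⟨x, hx, h⟩ := poly2 hd (by omega) hP hdeg hroot hMpos hcop hdiv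
  have h1 : M ∣ (d : ℤ) ^ (j + j) - 1 := ⟨(d : ℤ) ^ j - 1, by rw [hM, pow_add]; ring⟩
  have h2 := h (j + j) h1
  rw [Finset.sum_range_add, ← Finset.sum_add_distrib] at h2
  have h3 : ∀ i ∈ range j, Int.fract ((x : ℝ) * (d : ℝ) ^ i / M) +
      Int.fract ((x : ℝ) * (d : ℝ) ^ (j + i) / M) = 1 := by
    intro i _
    have h4 : (x : ℝ) * (d : ℝ) ^ (j + i) / M =
        ((x * (d : ℤ) ^ i : ℤ) : ℝ) + -((x : ℝ) * (d : ℝ) ^ i / M) := by
      rw [hM] at hMR ⊢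
      push_cast at hMR ⊢
      field_simp
      ring
    rw [h4, Int.fract_intCast_add]
    have h5 : Int.fract ((x : ℝ) * (d : ℝ) ^ i / M) ≠ 0 := by
      intro h6
      obtain ⟨z, hz⟩ := Int.fract_eq_zero_iff.mp h6
      rw [eq_div_iff hMR.ne'] at hz
      have h7 : z * M = x * (d : ℤ) ^ i := by exact_mod_cast hz
      exact hx ((hcop.pow_right (n := i)).dvd_of_dvd_mul_right ⟨z, by rw [← h7]; ring⟩)
    rw [Int.fract_neg h5]
    ring
  rw [Finset.sum_congr rfl h3, Finset.sum_const, card_range, nsmul_eq_mul, mul_one] at h2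
  have hΓ1 := gamma_le_one (s := s) (by omega)
  have hΓ : 0 < Real.Gamma (1 + 1 / (s : ℝ)) := Real.Gamma_pos_of_pos (by positivity)
  have hfR : (6 : ℝ) ≤ s.factorial := by
    have : 6 ≤ s.factorial := by
      calc 6 = (3 : ℕ).factorial := by norm_num [Nat.factorial]
        _ ≤ s.factorial := Nat.factorial_le hs
    exact_mod_cast this
  have h8 : Real.Gamma (1 + 1 / (s : ℝ)) ^ s / (s.factorial * ((d : ℝ) - 1)) ≤ 1 / 6 := by
    apply div_le_div₀ zero_le_one hΓ1 (by norm_num)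
    nlinarith
  have hjR : (1 : ℝ) ≤ j := by exact_mod_cast hj
  push_cast at h2
  nlinarith

end Pool.Agent.Lib.A7
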