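import Pool.Agent.Lib.MP_a7a9f5_nt.Gap

set_option autoImplicit false

namespace Pool.Agent.Lib.A7

open Finset

section
variable {d s : ℕ} {c : ℕ → ℤ}

lemma q_dvd_A (hs : s ≠ 0) {q : ℤ} (hq1 : q ∣ c s * (s.factorial : ℤ)) {i : ℕ}
    (h1 : E s (s - 1) i = 0) (h2 : ¬ NonInj s s i) : q ∣ A s c i := by
  rw [A_eq_of hs c h1]
  obtain ⟨w, hw⟩ := factorial_dvd hs h2
  rw [hw, ← mul_assoc]
  exact hq1.mul_right _

lemma q_dvd_T (hs : s ≠ 0) {q : ℤ} (hq1 : q ∣ c s * (s.factorial : ℤ)) {k : ℕ}
    (hq2 : q ∣ (d : ℤ) ^ k) {m : ℕ} (hm : k ≤ m)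
    (h : ∀ i, m - k < i → i ≤ m → E s (s - 1) i = 0 ∧ ¬ NonInj s s i) : q ∣ T d s c m := by
  have hind : ∀ j, j ≤ k → q ∣ T d s c (m - k + j) - (d : ℤ) ^ j * T d s c (m - k) := by
    intro j
    induction j with
    | zero => intro _; simp
    | succ j ih =>
      intro hj
      have ih' := ih (by omega)
      have hA := h (m - k + (j + 1)) (by omega) (by omega)
      have hA' := q_dvd_A (c := c) hs hq1 hA.1 hA.2
      have hT := T_succ d s c (m - k + j)
      have e1 : m - k + (j + 1) = m - k + j + 1 := by omega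
      rw [e1] at hA' ⊢
      rw [hT]
      have e2 : (d : ℤ) * T d s c (m - k + j) - A s c (m - k + j + 1) -
          (d : ℤ) ^ (j + 1) * T d s c (m - k) =
          (d : ℤ) * (T d s c (m - k + j) - (d : ℤ) ^ j * T d s c (m - k)) -
            A s c (m - k + j + 1) := by rw [pow_succ]; ring
      rw [e2]
      exact dvd_sub (ih'.mul_left _) hA'
  have h1 := hind k le_rfl
  have e3 : m - k + k = m := by omega
  rw [e3] at h1
  have h2 : q ∣ (d : ℤ) ^ k * T d s c (m - k) := hq2.mul_right _
  have := dvd_add h1 h2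
  simpa using this

open Classical in
/-- bad places for divisibility -/
lemma card_bad (hs : s ≠ 0) {q : ℤ} (hq1 : q ∣ c s * (s.factorial : ℤ)) {k : ℕ}
    (hq2 : q ∣ (d : ℤ) ^ k) (N : ℕ) :
    ((range N).filter (fun m => ¬ q ∣ T d s c m)).card ≤
      k + k * (((range N).filter (fun m => 0 < E s (s - 1) m)).card +
        ((range N).filter (fun m => NonInj s s m)).card) := by
  set B := (range N).filter (fun m => 0 < E s (s - 1) m) ∪ (range N).filter (fun m => NonInj s s m)
    with hB
  have hsub : (range N).filter (fun m => ¬ q ∣ T d s c m) ⊆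
      range k ∪ (range k ×ˢ B).image (fun p => p.2 + p.1) := by
    intro m hm
    simp only [mem_filter, mem_range] at hm
    obtain ⟨hmN, hmq⟩ := hm
    by_cases hmk : m < k
    · exact mem_union_left _ (mem_range.mpr hmk)
    · push Not at hmk
      apply mem_union_right
      have hex : ¬ ∀ i, m - k < i → i ≤ m → E s (s - 1) i = 0 ∧ ¬ NonInj s s i :=
        fun h => hmq (q_dvd_T hs hq1 hq2 hmk h)
      push Not at hex
      obtain ⟨i, h1, h2, h3⟩ := hex
      rw [mem_image]
      refine ⟨(m - i, i), ?_, by simp only; omega⟩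
      rw [mem_product]
      refine ⟨mem_range.mpr (by simp only; omega), ?_⟩
      simp only [hB, mem_union, mem_filter, mem_range]
      by_cases h4 : E s (s - 1) i = 0
      · right; exact ⟨by omega, h3 h4⟩
      · left
        refine ⟨by omega, ?_⟩
        exact lt_of_le_of_ne (E_nonneg hs) (Ne.symm h4)
  refine (Finset.card_le_card hsub).trans ?_
  refine (Finset.card_union_le _ _).trans ?_
  rw [card_range]
  apply Nat.add_le_add_left
  refine Finset.card_image_le.trans ?_
  rw [card_product, card_range]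
  exact Nat.mul_le_mul_left _ (Finset.card_union_le _ _)

/-- cardinality of the set of sums of s - 1 powers -/
lemma card_S_le (hs : s ≠ 0) (Y : ℕ) :
    ((range (Y ^ s)).filter (fun m => 0 < E s (s - 1) m)).card ≤ Y ^ (s - 1) := by
  have h1 : (((range (Y ^ s)).filter (fun m => 0 < E s (s - 1) m)).card : ℤ) ≤
      ∑ m ∈ range (Y ^ s), E s (s - 1) m := by
    rw [Finset.card_filter]
    push_cast
    apply Finset.sum_le_sum
    intro m _
    split_ifs with h
    · omega
    · exact E_nonneg hs
  have h2 := h1.trans (sum_E_le hs)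
  exact_mod_cast h2

open Classical in
lemma card_NI_le (hs : s ≠ 0) (Y : ℕ) :
    ((range (Y ^ s)).filter (fun m => NonInj s s m)).card ≤ s ^ 2 * Y ^ (s - 1) := by
  obtain ⟨k, rfl⟩ : ∃ k, s = k + 1 := ⟨s - 1, by omega⟩
  have := card_nonInj_le (s := k + 1) (k := k) (Y := Y)
  simpa using this

open Classical in
/-- number of resets -/
lemma card_reset (hs : s ≠ 0) (Y : ℕ) :
    (s.factorial : ℝ) * (((range (Y ^ s)).filter (fun m => E s s m ≠ 0)).card : ℝ) ≤
      ∑ m ∈ range (Y ^ s), (E s s m : ℝ) + s.factorial *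
        (((range (Y ^ s)).filter (fun m => NonInj s s m)).card : ℝ) := by
  rw [Finset.card_filter, Finset.card_filter]
  push_cast
  rw [Finset.mul_sum, Finset.mul_sum, ← Finset.sum_add_distrib]
  apply Finset.sum_le_sum
  intro m _
  have h0 : (0 : ℝ) ≤ (E s s m : ℝ) := by exact_mod_cast E_nonneg hs
  by_cases hE : E s s m = 0
  · simp only [hE, ne_eq, not_true_eq_false, if_false, mul_zero, Int.cast_zero, zero_add]
    split_ifs <;> positivity
  · simp only [ne_eq, hE, not_false_eq_true, if_true, mul_one]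
    by_cases hN : NonInj s s m
    · simp only [hN, if_true, mul_one]; linarith
    · simp only [hN, if_false, mul_zero, add_zero]
      have h1 := factorial_dvd hs hN
      have h2 : 0 < E s s m := lt_of_le_of_ne (E_nonneg hs) (Ne.symm hE)
      have h3 := Int.le_of_dvd h2 h1
      exact_mod_cast h3

end

end Pool.Agent.Lib.A7
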