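import Pool.Agent.Lib.MP_a7a9f5_nt.Basic

set_option autoImplicit false

namespace Pool.Agent.Lib.A7

open Finset MeasureTheory

/-- tuples with positive entries -/
def post (s Y : ℕ) : Finset (Fin s → ℕ) := (allt s s Y).filter (fun f => ∀ i, f i ≠ 0)

/-- the open unit cube attached to a tuple and a sign vector -/
def cube {s : ℕ} (t : (Fin s → ℕ) × (Fin s → Bool)) : Set (Fin s → ℝ) :=
  Set.pi Set.univ fun i => Set.Ioo (if t.2 i then (t.1 i : ℝ) - 1 else -(t.1 i : ℝ))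
    (if t.2 i then (t.1 i : ℝ) else 1 - (t.1 i : ℝ))

lemma cube_vol {s : ℕ} (t : (Fin s → ℕ) × (Fin s → Bool)) : volume (cube t) = 1 := by
  rw [cube, Real.volume_pi_Ioo]
  apply Finset.prod_eq_one
  intro i _
  split_ifs
  · norm_num
  · have : (1 : ℝ) - t.1 i - -(t.1 i : ℝ) = 1 := by ring
    rw [this]; norm_num

lemma cube_meas {s : ℕ} (t : (Fin s → ℕ) × (Fin s → Bool)) : MeasurableSet (cube t) :=
  MeasurableSet.univ_pi (fun _ => measurableSet_Ioo)

lemma cube_abs {s : ℕ} {t : (Fin s → ℕ) × (Fin s → Bool)} (h : ∀ i, t.1 i ≠ 0)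
    {x : Fin s → ℝ} (hx : x ∈ cube t) (i : Fin s) :
    (t.1 i : ℝ) - 1 < |x i| ∧ |x i| < t.1 i ∧ (t.2 i = true ↔ 0 < x i) := by
  have h1 : (1 : ℝ) ≤ t.1 i := by
    have := h i
    exact_mod_cast Nat.one_le_iff_ne_zero.mpr this
  have h2 := hx i (Set.mem_univ _)
  beta_reduce at h2
  by_cases h3 : t.2 i = true
  · rw [if_pos h3, if_pos h3] at h2
    have h4 : 0 < x i := by linarith [h2.1]
    rw [abs_of_pos h4]
    exact ⟨h2.1, h2.2, ⟨fun _ => h4, fun _ => h3⟩⟩
  · rw [if_neg h3, if_neg h3] at h2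
    have h4 : x i < 0 := by linarith [h2.2]
    rw [abs_of_neg h4]
    exact ⟨by linarith [h2.2], by linarith [h2.1], ⟨fun h5 => absurd h5 h3, fun h5 => by linarith⟩⟩

lemma cube_disj {s Y : ℕ} :
    Set.PairwiseDisjoint (↑((post s Y) ×ˢ (univ : Finset (Fin s → Bool))) :
      Set ((Fin s → ℕ) × (Fin s → Bool))) cube := by
  intro t ht t' ht' hne
  rw [Function.onFun, Set.disjoint_left]
  intro x hx hx'
  apply hne
  rw [Finset.mem_coe, mem_product, post, mem_filter] at ht ht'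
  have h1 := cube_abs ht.1.2 hx
  have h2 := cube_abs ht'.1.2 hx'
  apply Prod.ext
  · funext i
    obtain ⟨a1, a2, _⟩ := h1 i
    obtain ⟨b1, b2, _⟩ := h2 i
    have c1 : (t.1 i : ℝ) < t'.1 i + 1 := by linarith
    have c2 : (t'.1 i : ℝ) < t.1 i + 1 := by linarith
    have d1 : t.1 i < t'.1 i + 1 := by exact_mod_cast c1
    have d2 : t'.1 i < t.1 i + 1 := by exact_mod_cast c2
    omega
  · funext i
    obtain ⟨_, _, a3⟩ := h1 i
    obtain ⟨_, _, b3⟩ := h2 i
    rw [Bool.eq_iff_iff, a3, b3]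

lemma post_card_le {s : ℕ} (hs : s ≠ 0) (Y : ℕ) :
    ((post s Y).card : ℝ) ≤ Real.Gamma (1 + 1 / s) ^ s * (Y : ℝ) ^ s := by
  have hs1 : (1 : ℝ) ≤ s := by exact_mod_cast Nat.one_le_iff_ne_zero.mpr hs
  have hs0 : (s : ℝ) ≠ 0 := by linarith
  have : NeZero s := ⟨hs⟩
  have hne : Nonempty (Fin s) := ⟨0⟩
  have hsub : (⋃ t ∈ (post s Y) ×ˢ (univ : Finset (Fin s → Bool)), cube t) ⊆
      {x : Fin s → ℝ | (∑ i, |x i| ^ (s : ℝ)) ^ (1 / (s : ℝ)) < Y} := by
    intro x hx
    rw [Set.mem_iUnion₂] at hx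
    obtain ⟨t, ht, hxt⟩ := hx
    rw [mem_product, post, mem_filter, mem_allt] at ht
    have h1 := cube_abs ht.1.2 hxt
    have h2 : ∑ i, |x i| ^ (s : ℝ) ≤ ∑ i, (t.1 i : ℝ) ^ s := by
      apply Finset.sum_le_sum
      intro i _
      rw [Real.rpow_natCast]
      exact pow_le_pow_left₀ (abs_nonneg _) (h1 i).2.1.le s
    have h3 : ∑ i, (t.1 i : ℝ) ^ s < (Y : ℝ) ^ s := by exact_mod_cast ht.1.1.2
    have h4 : 0 ≤ ∑ i, |x i| ^ (s : ℝ) := Finset.sum_nonneg (fun i _ => by positivity)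
    show (∑ i, |x i| ^ (s : ℝ)) ^ (1 / (s : ℝ)) < Y
    calc (∑ i, |x i| ^ (s : ℝ)) ^ (1 / (s : ℝ)) < ((Y : ℝ) ^ s) ^ (1 / (s : ℝ)) :=
          Real.rpow_lt_rpow h4 (lt_of_le_of_lt h2 h3) (by positivity)
      _ = Y := by
          rw [← Real.rpow_natCast, ← Real.rpow_mul (Nat.cast_nonneg _), mul_one_div_cancel hs0,
            Real.rpow_one]
  have hvol := measure_mono (μ := volume) hsub
  rw [measure_biUnion_finset cube_disj (fun t _ => cube_meas t),
    volume_sum_rpow_lt (Fin s) hs1 (Y : ℝ)] at hvol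
  simp only [cube_vol, Finset.sum_const, card_product, Finset.card_univ, Fintype.card_pi,
    Fintype.card_bool, Finset.prod_const, Fintype.card_fin, nsmul_eq_mul, mul_one] at hvol
  have hG2 : Real.Gamma ((s : ℝ) / s + 1) = 1 := by
    rw [div_self hs0]; norm_num
  rw [hG2, div_one] at hvol
  have hΓ : 0 < Real.Gamma (1 / (s : ℝ) + 1) := Real.Gamma_pos_of_pos (by positivity)
  rw [← ENNReal.ofReal_pow (Nat.cast_nonneg _), ← ENNReal.ofReal_mul (by positivity)] at hvol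
  have hcast : ((((post s Y).card * 2 ^ s : ℕ)) : ENNReal) =
      ENNReal.ofReal (((post s Y).card : ℝ) * 2 ^ s) := by
    rw [← ENNReal.ofReal_natCast]
    push_cast
    rfl
  rw [hcast] at hvol
  have h5 : ((post s Y).card : ℝ) * 2 ^ s ≤ (Y : ℝ) ^ s * (2 * Real.Gamma (1 / (s : ℝ) + 1)) ^ s :=
    (ENNReal.ofReal_le_ofReal_iff (by positivity)).mp hvol
  rw [mul_pow] at h5
  have h6 : ((post s Y).card : ℝ) * 2 ^ s ≤
      (Real.Gamma (1 / (s : ℝ) + 1) ^ s * (Y : ℝ) ^ s) * 2 ^ s := by linarith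
  have h7 := le_of_mul_le_mul_right h6 (by positivity)
  rwa [add_comm (1 / (s : ℝ)) 1] at h7

lemma zero_card_le (s Y : ℕ) (i : Fin s) :
    ((allt s s Y).filter (fun f => f i = 0)).card ≤ Y ^ (s - 1) := by
  have h1 : (allt s s Y).filter (fun f => f i = 0) ⊆
      Fintype.piFinset (fun j => if j = i then {0} else range Y) := by
    intro f hf
    rw [mem_filter, mem_allt] at hf
    rw [Fintype.mem_piFinset]
    intro j
    split_ifs with h
    · rw [h]; simpa using hf.2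
    · exact mem_range.mpr (hf.1.1 j)
  refine (Finset.card_le_card h1).trans (le_of_eq ?_)
  rw [Fintype.card_piFinset]
  have h2 : ∀ j : Fin s, (if j = i then ({0} : Finset ℕ) else range Y).card =
      if j = i then 1 else Y := by
    intro j
    split_ifs <;> simp
  rw [Finset.prod_congr rfl (fun j _ => h2 j), Finset.prod_ite, Finset.prod_const_one, one_mul,
    Finset.prod_const, Finset.filter_ne' univ i, Finset.card_erase_of_mem (mem_univ i),
    Finset.card_univ, Fintype.card_fin]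

lemma count_le {s : ℕ} (hs : s ≠ 0) (Y : ℕ) :
    ∑ m ∈ range (Y ^ s), (E s s m : ℝ) ≤
      Real.Gamma (1 + 1 / s) ^ s * (Y : ℝ) ^ s + s * (Y : ℝ) ^ (s - 1) := by
  have h1 := sum_E (s := s) (k := s) (Y := Y) hs
  have h2 : ∑ m ∈ range (Y ^ s), (E s s m : ℝ) = ((allt s s Y).card : ℝ) := by exact_mod_cast h1
  rw [h2]
  have h3 : allt s s Y ⊆ post s Y ∪ univ.biUnion (fun i => (allt s s Y).filter (fun f => f i = 0)) := by
    intro f hf
    rw [mem_union, mem_biUnion, post, mem_filter]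
    by_cases h : ∀ i, f i ≠ 0
    · left; exact ⟨hf, h⟩
    · right
      push Not at h
      obtain ⟨i, hi⟩ := h
      exact ⟨i, mem_univ i, mem_filter.mpr ⟨hf, hi⟩⟩
  have h4 : (allt s s Y).card ≤ (post s Y).card + s * Y ^ (s - 1) := by
    refine (Finset.card_le_card h3).trans ((Finset.card_union_le _ _).trans ?_)
    apply Nat.add_le_add_left
    refine Finset.card_biUnion_le.trans ?_
    refine (Finset.sum_le_sum (fun i _ => zero_card_le s Y i)).trans ?_
    simp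
  have h4R : ((allt s s Y).card : ℝ) ≤ (post s Y).card + s * (Y : ℝ) ^ (s - 1) := by
    exact_mod_cast h4
  have h5 := post_card_le hs Y
  linarith

end Pool.Agent.Lib.A7
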