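import Pool.Agent.Lib.MP_a7a9f5_nt.Limit
import Pool.Agent.Lib.MP_a7a9f5_nt.Vol

set_option autoImplicit false

namespace Pool.Agent.Lib.A7

open Finset Filter Topology

/-- removing the part of a number that divides a power of `d` -/
lemma gcd_step {a D : ℤ} {M : ℤ} (ha : 0 < a) (h : a ∣ M * D) (hM : 0 < M) :
    ∃ q : ℤ, 0 < q ∧ q ∣ a ∧ q ∣ D ∧ (a : ℝ) / q ≤ M := by
  have hg : 0 < Int.gcd a D := Int.gcd_pos_of_ne_zero_left _ ha.ne'
  obtain ⟨u, v, h1, h2, h3⟩ := Int.exists_gcd_one hg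
  have hq : (0 : ℤ) < (Int.gcd a D : ℤ) := by exact_mod_cast hg
  refine ⟨Int.gcd a D, hq, Int.gcd_dvd_left _ _, Int.gcd_dvd_right _ _, ?_⟩
  set q : ℤ := (Int.gcd a D : ℤ) with hqdef
  have h4 : u ∣ M * v := by
    rw [h2, h3, ← mul_assoc] at h
    exact (mul_dvd_mul_iff_right hq.ne').mp h
  have h5 : u ∣ M := (Int.isCoprime_iff_gcd_eq_one.mpr h1).dvd_of_dvd_mul_right h4
  have h6 : u ≤ M := Int.le_of_dvd hM h5
  have hqR : (0 : ℝ) < q := by exact_mod_cast hq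
  rw [div_le_iff₀ hqR]
  have h7 : a ≤ M * q := by
    rw [h2]; exact mul_le_mul_of_nonneg_right h6 hq.le
  exact_mod_cast h7

/-- the statement with coefficients -/
lemma coeffs {d s : ℕ} (hd : 2 ≤ d) (hs : 2 ≤ s) {c : ℕ → ℤ} (hc : 0 < c s)
    (hroot : ∑ k ∈ range (s + 1), (c k : ℝ) * (∑' n : ℕ, ((d : ℝ) ^ (n ^ s))⁻¹) ^ k = 0)
    {M : ℤ} (hM : 0 < M) {k : ℕ} (hdiv : (s.factorial : ℤ) * c s ∣ M * (d : ℤ) ^ k) :
    (d : ℝ) ^ ((s.factorial : ℝ) / Real.Gamma (1 + 1 / s) ^ s) - 1 ≤ M := by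
  have hs0 : s ≠ 0 := by omega
  have hd' : (2 : ℝ) ≤ d := by exact_mod_cast hd
  have hx0 : (0 : ℝ) < (d : ℝ)⁻¹ := by positivity
  have hx1 : (d : ℝ)⁻¹ < 1 := by
    apply inv_lt_one_of_one_lt₀; linarith
  have hz : ∑' m, (A s c m : ℝ) * ((d : ℝ)⁻¹) ^ m = 0 := by
    rw [(summable_A hs0 c hx0 hx1).2]
    simpa [inv_pow] using hroot
  have hf : (0 : ℤ) < s.factorial := by exact_mod_cast s.factorial_pos
  obtain ⟨q, hq, hq1, hq2, hq3⟩ := gcd_step (a := (s.factorial : ℤ) * c s) (by positivity) hdiv hM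
  have hΓ : 0 < Real.Gamma (1 + 1 / (s : ℝ)) := Real.Gamma_pos_of_pos (by positivity)
  have h1 := core hd hs hz hc hq (by rwa [mul_comm] at hq1) hq2
    (γ := Real.Gamma (1 + 1 / s) ^ s) (C2 := s) (by positivity) (fun Y _ => count_le hs0 Y)
  refine h1.trans ?_
  push_cast at hq3
  rw [mul_comm (s.factorial : ℝ)] at hq3
  exact hq3

/-- the statement for polynomials -/
lemma poly {d s : ℕ} (hd : 2 ≤ d) (hs : 2 ≤ s) {P : Polynomial ℤ} (hP : P ≠ 0)
    (hdeg : P.natDegree ≤ s)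
    (hroot : Polynomial.aeval (∑' n : ℕ, ((d : ℝ) ^ (n ^ s))⁻¹) P = 0)
    {M : ℤ} (hM : 0 < M) {k : ℕ} (hdiv : (s.factorial : ℤ) * P.leadingCoeff ∣ M * (d : ℤ) ^ k) :
    (d : ℝ) ^ ((s.factorial : ℝ) / Real.Gamma (1 + 1 / s) ^ s) - 1 ≤ M := by
  set Q : Polynomial ℤ := P * Polynomial.X ^ (s - P.natDegree) with hQ
  have hQdeg : Q.natDegree = s := by
    rw [hQ, Polynomial.natDegree_mul_X_pow _ hP]
    omega
  have hQlc : Q.coeff s = P.leadingCoeff := by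
    have h1 : s = P.natDegree + (s - P.natDegree) := by omega
    rw [hQ]
    conv_lhs => rw [h1]
    rw [show P.natDegree + (s - P.natDegree) - P.natDegree = s - P.natDegree by omega]
    rw [Polynomial.coeff_mul_X_pow, Polynomial.coeff_natDegree]
  have hQroot : Polynomial.aeval (∑' n : ℕ, ((d : ℝ) ^ (n ^ s))⁻¹) Q = 0 := by
    rw [hQ, map_mul, hroot, zero_mul]
  rw [Polynomial.aeval_eq_sum_range, hQdeg] at hQroot
  simp only [zsmul_eq_mul] at hQroot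
  have hlc : P.leadingCoeff ≠ 0 := Polynomial.leadingCoeff_ne_zero.mpr hP
  rcases lt_or_gt_of_ne hlc with h | h
  · apply coeffs hd hs (c := fun k => - Q.coeff k) (M := M) (k := k) _ _ hM
    · simp only [hQlc]
      rw [mul_neg]
      exact (neg_dvd).mpr hdiv
    · simp only [hQlc]; omega
    · push_cast
      simp only [neg_mul, Finset.sum_neg_distrib, neg_eq_zero]
      exact hQroot
  · apply coeffs hd hs (c := fun k => Q.coeff k) (M := M) (k := k) _ _ hM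
    · simp only [hQlc]; exact hdiv
    · simp only [hQlc]; exact h
    · exact hQroot

lemma gamma_le_one {s : ℕ} (hs : 2 ≤ s) : Real.Gamma (1 + 1 / (s : ℝ)) ^ s ≤ 1 := by
  have hs0 : (0 : ℝ) < s := by positivity
  have hs1 : (1 : ℝ) ≤ s := by exact_mod_cast (by omega : 1 ≤ s)
  have hΓ : 0 < Real.Gamma (1 + 1 / (s : ℝ)) := Real.Gamma_pos_of_pos (by positivity)
  apply pow_le_one₀ hΓ.le
  have h1 := Real.convexOn_Gamma
  have h2 := h1.2 (show (1 : ℝ) ∈ Set.Ioi 0 by simp) (show (2 : ℝ) ∈ Set.Ioi 0 by simp)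
    (show 0 ≤ 1 - 1 / (s : ℝ) by rw [sub_nonneg, div_le_one hs0]; exact hs1)
    (show 0 ≤ 1 / (s : ℝ) by positivity) (by ring)
  simp only [smul_eq_mul] at h2
  rw [Real.Gamma_one, Real.Gamma_two] at h2
  have h3 : (1 - 1 / (s : ℝ)) * 1 + 1 / (s : ℝ) * 2 = 1 + 1 / s := by ring
  rw [h3] at h2
  linarith

/-- the numerical inequality -/
lemma fact_lt {d s : ℕ} (hd : 2 ≤ d) (hs : 2 ≤ s) :
    (s.factorial : ℝ) < (d : ℝ) ^ ((s.factorial : ℝ) / Real.Gamma (1 + 1 / s) ^ s) - 1 := by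
  have hd' : (2 : ℝ) ≤ d := by exact_mod_cast hd
  have hf : 2 ≤ s.factorial := by
    calc 2 = (2 : ℕ).factorial := by norm_num
      _ ≤ s.factorial := Nat.factorial_le hs
  have hΓ : 0 < Real.Gamma (1 + 1 / (s : ℝ)) := Real.Gamma_pos_of_pos (by positivity)
  have h1 : (s.factorial : ℝ) ≤ (s.factorial : ℝ) / Real.Gamma (1 + 1 / s) ^ s := by
    rw [le_div_iff₀ (by positivity)]
    have := gamma_le_one hs
    have h0 : (0 : ℝ) ≤ s.factorial := Nat.cast_nonneg _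
    nlinarith
  have h2 : (2 : ℝ) ^ (s.factorial : ℝ) ≤
      (d : ℝ) ^ ((s.factorial : ℝ) / Real.Gamma (1 + 1 / s) ^ s) := by
    calc (2 : ℝ) ^ (s.factorial : ℝ) ≤ (d : ℝ) ^ (s.factorial : ℝ) :=
          Real.rpow_le_rpow (by norm_num) hd' (Nat.cast_nonneg _)
      _ ≤ _ := Real.rpow_le_rpow_of_exponent_le (by linarith) h1
  have h3 : ∀ n : ℕ, 2 ≤ n → n + 1 < 2 ^ n := by
    intro n hn
    induction n, hn using Nat.le_induction with
    | base => norm_num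
    | succ n _ ih => rw [pow_succ]; omega
  have h4 : ((s.factorial : ℝ) + 1) < (2 : ℝ) ^ (s.factorial : ℝ) := by
    rw [Real.rpow_natCast]
    exact_mod_cast h3 _ hf
  linarith

end Pool.Agent.Lib.A7
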