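import Pool.Agent.Lib.MP_a7a9f5_nt.Limit2
import Pool.Agent.Lib.MP_a7a9f5_nt.Final

set_option autoImplicit false

namespace Pool.Agent.Lib.A7

open Finset Filter Topology

lemma sum_periodic {f : ℕ → ℝ} {J : ℕ} (h : ∀ j, f (j + J) = f j) (n : ℕ) :
    ∑ j ∈ range (n * J), f j = n * ∑ j ∈ range J, f j := by
  have hp : ∀ n j, f (n * J + j) = f j := by
    intro n
    induction n with
    | zero => intro j; simp
    | succ n ih =>
      intro j
      have : (n + 1) * J + j = (n * J + j) + J := by ring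
      rw [this, h, ih]
  induction n with
  | zero => simp
  | succ n ih =>
    rw [Nat.succ_mul, Finset.sum_range_add, ih, Finset.sum_congr rfl (fun j _ => hp n j)]
    push_cast
    ring

lemma rr_fract {M y : ℤ} (hM : 0 < M) (hy : ¬ M ∣ y) :
    (rr M y : ℝ) = M * Int.fract ((y : ℝ) / M) := by
  have hMR : (0 : ℝ) < M := by exact_mod_cast hM
  have h1 : (y - 1) % M = y % M - 1 := by
    have h2 : 0 < y % M := by
      have := Int.emod_nonneg y hM.ne'
      rcases this.lt_or_eq with h | h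
      · exact h
      · exact absurd (Int.dvd_of_emod_eq_zero h.symm) hy
    have h3 : y % M < M := Int.emod_lt_of_pos y hM
    have h4 : y - 1 = (y % M - 1) + M * (y / M) := by
      have := Int.emod_add_mul_ediv y M
      omega
    rw [h4, Int.add_mul_emod_self_left]
    exact Int.emod_eq_of_lt (by omega) (by omega)
  have h5 : ⌊(y : ℝ) / M⌋ = y / M := by
    rw [Int.floor_eq_iff]
    have h6 := Int.emod_add_mul_ediv y M
    have h7 : ((y % M : ℤ) : ℝ) + (M : ℝ) * ((y / M : ℤ) : ℝ) = y := by exact_mod_cast h6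
    have h8 : (0 : ℝ) ≤ ((y % M : ℤ) : ℝ) := by exact_mod_cast Int.emod_nonneg y hM.ne'
    have h9 : ((y % M : ℤ) : ℝ) < M := by exact_mod_cast Int.emod_lt_of_pos y hM
    constructor
    · rw [le_div_iff₀ hMR]; linarith
    · rw [div_lt_iff₀ hMR]; linarith
  have h10 : Int.fract ((y : ℝ) / M) = (y : ℝ) / M - ((y / M : ℤ) : ℝ) := by
    rw [Int.fract, h5]
  rw [h10, rr, h1]
  have h6 := Int.emod_add_mul_ediv y M
  have h7 : ((y % M : ℤ) : ℝ) + (M : ℝ) * ((y / M : ℤ) : ℝ) = y := by exact_mod_cast h6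
  push_cast
  rw [mul_sub, mul_div_cancel₀ _ hMR.ne']
  linarith

lemma rr_of_dvd {M y : ℤ} (hM : 0 < M) (hy : M ∣ y) : rr M y = M := by
  obtain ⟨z, rfl⟩ := hy
  rw [rr]
  have h4 : M * z - 1 = (M - 1) + M * (z - 1) := by ring
  rw [h4, Int.add_mul_emod_self_left, Int.emod_eq_of_lt (by omega) (by omega)]
  ring

/-- from the orbit inequality to a fraction with small digits -/
lemma exists_orbit {d : ℕ} {M' : ℤ} (hM' : 0 < M') (hcop : IsCoprime M' (d : ℤ))
    {κ : ℝ} (hκ : κ < 1)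
    (hcore : ∀ (J : ℕ) (μ : ℝ), 1 ≤ J → 0 ≤ μ →
      (∀ x : ℤ, J * μ ≤ ∑ i ∈ range J, (rr M' (x * (d : ℤ) ^ i) : ℝ)) → μ ≤ M' * κ)
    (hκ0 : 0 ≤ κ) :
    ∃ x : ℤ, ¬ M' ∣ x ∧ ∀ J : ℕ, M' ∣ (d : ℤ) ^ J - 1 →
      ∑ j ∈ range J, Int.fract ((x : ℝ) * (d : ℝ) ^ j / M') ≤ J * κ := by
  by_contra hcon
  push Not at hcon
  have hMR : (0 : ℝ) < M' := by exact_mod_cast hM'
  set J1 := Nat.totient M'.natAbs with hJ1
  have hnat : 0 < M'.natAbs := Int.natAbs_pos.mpr hM'.ne'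
  have hJ1pos : 0 < J1 := Nat.totient_pos.mpr hnat
  have hJ1R : (0 : ℝ) < J1 := by exact_mod_cast hJ1pos
  have hcopN : Nat.Coprime d M'.natAbs := by
    have := Int.isCoprime_iff_gcd_eq_one.mp hcop
    rw [Nat.coprime_comm]
    simpa [Int.gcd] using this
  have hJ1d : M' ∣ (d : ℤ) ^ J1 - 1 := by
    have h1 := Nat.ModEq.pow_totient hcopN
    have h2 := (Nat.modEq_iff_dvd.mp h1.symm)
    have h3 : ((M'.natAbs : ℕ) : ℤ) = M' := Int.natAbs_of_nonneg hM'.le
    rw [h3] at h2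
    push_cast at h2
    exact h2
  have hper : ∀ (x : ℤ) (J : ℕ), M' ∣ (d : ℤ) ^ J - 1 → ∀ j,
      (rr M' (x * (d : ℤ) ^ (j + J)) : ℝ) = rr M' (x * (d : ℤ) ^ j) := by
    intro x J hJ j
    have : rr M' (x * (d : ℤ) ^ (j + J)) = rr M' (x * (d : ℤ) ^ j) := by
      apply rr_congr
      have h1 : x * (d : ℤ) ^ (j + J) - x * (d : ℤ) ^ j =
          (x * (d : ℤ) ^ j) * ((d : ℤ) ^ J - 1) := by rw [pow_add]; ring
      rw [h1]
      exact hJ.mul_left _
    rw [this]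
  have hall : ∀ x : ℤ, J1 * (M' * κ) < ∑ i ∈ range J1, (rr M' (x * (d : ℤ) ^ i) : ℝ) := by
    intro x
    by_cases hx : M' ∣ x
    · have h1 : ∀ i ∈ range J1, (rr M' (x * (d : ℤ) ^ i) : ℝ) = M' := by
        intro i _
        rw [rr_of_dvd hM' (hx.mul_right _)]
      rw [Finset.sum_congr rfl h1, Finset.sum_const, card_range, nsmul_eq_mul]
      apply mul_lt_mul_of_pos_left _ hJ1R
      nlinarith
    · obtain ⟨J, hJ, hlt⟩ := hcon x hx
      have hJpos : 0 < J := by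
        rcases Nat.eq_zero_or_pos J with h | h
        · subst h; simp at hlt
        · exact h
      have hJR : (0 : ℝ) < J := by exact_mod_cast hJpos
      have hnd : ∀ i : ℕ, ¬ M' ∣ x * (d : ℤ) ^ i := by
        intro i h
        exact hx ((hcop.pow_right (n := i)).dvd_of_dvd_mul_right h)
      have h1 : ∀ j ∈ range J, (rr M' (x * (d : ℤ) ^ j) : ℝ) =
          M' * Int.fract ((x : ℝ) * (d : ℝ) ^ j / M') := by
        intro j _
        rw [rr_fract hM' (hnd j)]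
        push_cast
        rfl
      have h2 : M' * (J * κ) < ∑ j ∈ range J, (rr M' (x * (d : ℤ) ^ j) : ℝ) := by
        rw [Finset.sum_congr rfl h1, ← Finset.mul_sum]
        exact mul_lt_mul_of_pos_left hlt hMR
      have h3 := sum_periodic (f := fun j => (rr M' (x * (d : ℤ) ^ j) : ℝ)) (hper x J hJ) J1
      have h4 := sum_periodic (f := fun j => (rr M' (x * (d : ℤ) ^ j) : ℝ)) (hper x J1 hJ1d) J
      rw [mul_comm J J1, h3] at h4
      have h5 : (J : ℝ) * (J1 * (M' * κ)) < J * ∑ i ∈ range J1, (rr M' (x * (d : ℤ) ^ i) : ℝ) := by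
        rw [← h4]
        have := mul_lt_mul_of_pos_left h2 hJ1R
        linarith
      exact lt_of_mul_lt_mul_left h5 hJR.le
  -- a uniform bound
  set F : ℤ := ⌊(J1 : ℝ) * (M' * κ)⌋ + 1 with hF
  have hFlt : (J1 : ℝ) * (M' * κ) < F := by
    rw [hF]; push_cast; exact Int.lt_floor_add_one _
  have hFle : ∀ x : ℤ, (F : ℝ) ≤ ∑ i ∈ range J1, (rr M' (x * (d : ℤ) ^ i) : ℝ) := by
    intro x
    have h1 := hall x
    have h2 : ∑ i ∈ range J1, (rr M' (x * (d : ℤ) ^ i) : ℝ) =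
        ((∑ i ∈ range J1, rr M' (x * (d : ℤ) ^ i) : ℤ) : ℝ) := (Int.cast_sum _ _).symm
    rw [h2] at h1 ⊢
    have h3 : ⌊(J1 : ℝ) * (M' * κ)⌋ < ∑ i ∈ range J1, rr M' (x * (d : ℤ) ^ i) :=
      Int.floor_lt.mpr h1
    exact Int.cast_le.mpr (by omega)
  have h0 : 0 ≤ (J1 : ℝ) * (M' * κ) := by positivity
  have h6 := hcore J1 (F / J1) hJ1pos (by
      apply div_nonneg _ hJ1R.le
      linarith) (by
      intro x
      rw [mul_div_cancel₀ _ hJ1R.ne']
      exact hFle x)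
  rw [div_le_iff₀ hJ1R] at h6
  linarith

/-- removing the part of a number that divides a power of `d` -/
lemma gcd_step2 {a D : ℤ} {M : ℤ} (ha : 0 < a) (h : a ∣ M * D) :
    ∃ q u : ℤ, 0 < q ∧ 0 < u ∧ a = q * u ∧ q ∣ D ∧ u ∣ M := by
  have hg : 0 < Int.gcd a D := Int.gcd_pos_of_ne_zero_left _ ha.ne'
  obtain ⟨u, v, h1, h2, h3⟩ := Int.exists_gcd_one hg
  have hq : (0 : ℤ) < (Int.gcd a D : ℤ) := by exact_mod_cast hg
  set q : ℤ := (Int.gcd a D : ℤ) with hqdef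
  have h4 : u ∣ M * v := by
    rw [h2, h3, ← mul_assoc] at h
    exact (mul_dvd_mul_iff_right hq.ne').mp h
  have h5 : u ∣ M := (Int.isCoprime_iff_gcd_eq_one.mpr h1).dvd_of_dvd_mul_right h4
  refine ⟨q, u, hq, ?_, by rw [mul_comm]; exact h2, Int.gcd_dvd_right _ _, h5⟩
  by_contra hu
  push Not at hu
  have : u * q ≤ 0 := mul_nonpos_of_nonpos_of_nonneg hu hq.le
  omega

/-- the statement with coefficients -/
lemma coeffs2 {d s : ℕ} (hd : 2 ≤ d) (hs : 2 ≤ s) {c : ℕ → ℤ} (hc : 0 < c s)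
    (hroot : ∑ k ∈ range (s + 1), (c k : ℝ) * (∑' n : ℕ, ((d : ℝ) ^ (n ^ s))⁻¹) ^ k = 0)
    {M : ℤ} (hM : 0 < M) (hcop : IsCoprime M (d : ℤ)) {k : ℕ}
    (hdiv : (s.factorial : ℤ) * c s ∣ M * (d : ℤ) ^ k) :
    ∃ x : ℤ, ¬ M ∣ x ∧ ∀ J : ℕ, M ∣ (d : ℤ) ^ J - 1 →
      ∑ j ∈ range J, Int.fract ((x : ℝ) * (d : ℝ) ^ j / M) ≤
        J * (Real.Gamma (1 + 1 / s) ^ s / (s.factorial * ((d : ℝ) - 1))) := by
  have hs0 : s ≠ 0 := by omega
  have hd' : (2 : ℝ) ≤ d := by exact_mod_cast hd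
  have hd1 : (0 : ℝ) < (d : ℝ) - 1 := by linarith
  have hx0 : (0 : ℝ) < (d : ℝ)⁻¹ := by positivity
  have hx1 : (d : ℝ)⁻¹ < 1 := by
    apply inv_lt_one_of_one_lt₀; linarith
  have hz : ∑' m, (A s c m : ℝ) * ((d : ℝ)⁻¹) ^ m = 0 := by
    rw [(summable_A hs0 c hx0 hx1).2]
    simpa [inv_pow] using hroot
  have hf : (0 : ℤ) < s.factorial := by exact_mod_cast s.factorial_pos
  have hfR : (2 : ℝ) ≤ s.factorial := by
    have : 2 ≤ s.factorial := by
      calc 2 = (2 : ℕ).factorial := by norm_num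
        _ ≤ s.factorial := Nat.factorial_le hs
    exact_mod_cast this
  obtain ⟨q, u, hq, hu, hqu, hqD, huM⟩ :=
    gcd_step2 (a := (s.factorial : ℤ) * c s) (by positivity) hdiv
  have hΓ : 0 < Real.Gamma (1 + 1 / (s : ℝ)) := Real.Gamma_pos_of_pos (by positivity)
  have hΓ1 := gamma_le_one hs
  set γ : ℝ := Real.Gamma (1 + 1 / (s : ℝ)) ^ s with hγ
  have hγ0 : 0 < γ := by positivity
  have hκ1 : γ / (s.factorial * ((d : ℝ) - 1)) < 1 := by
    rw [div_lt_one (by positivity)]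
    have : (2 : ℝ) * 1 ≤ s.factorial * ((d : ℝ) - 1) :=
      mul_le_mul hfR (by linarith) zero_le_one (by linarith)
    linarith
  have hcopu : IsCoprime u (d : ℤ) := hcop.of_isCoprime_of_dvd_left huM
  obtain ⟨x, hx1', hx2⟩ := exists_orbit (d := d) hu hcopu hκ1 (by
    intro J μ hJ hμ hH
    exact core2 hd hs hz hc hq hu (by rw [mul_comm]; exact hqu) hqD hJ hμ hH
      (γ := γ) (C2 := s) (fun Y _ => count_le hs0 Y)) (by positivity)
  obtain ⟨v, hv⟩ := huM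
  have huR : (0 : ℝ) < u := by exact_mod_cast hu
  have hv0 : v ≠ 0 := by
    rintro rfl
    simp at hv
    omega
  have hvR : (v : ℝ) ≠ 0 := by exact_mod_cast hv0
  refine ⟨x * v, ?_, fun J hJ => ?_⟩
  · rw [hv]
    intro h
    exact hx1' ((mul_dvd_mul_iff_right hv0).mp h)
  · have h1 : u ∣ (d : ℤ) ^ J - 1 := (Dvd.intro v hv.symm).trans hJ
    have h2 := hx2 J h1
    have h3 : ∀ j ∈ range J, Int.fract (((x * v : ℤ) : ℝ) * (d : ℝ) ^ j / M) =
        Int.fract ((x : ℝ) * (d : ℝ) ^ j / u) := by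
      intro j _
      congr 1
      rw [hv]
      push_cast
      field_simp
    rw [Finset.sum_congr rfl h3]
    exact h2

/-- the statement for polynomials -/
lemma poly2 {d s : ℕ} (hd : 2 ≤ d) (hs : 2 ≤ s) {P : Polynomial ℤ} (hP : P ≠ 0)
    (hdeg : P.natDegree ≤ s)
    (hroot : Polynomial.aeval (∑' n : ℕ, ((d : ℝ) ^ (n ^ s))⁻¹) P = 0)
    {M : ℤ} (hM : 0 < M) (hcop : IsCoprime M (d : ℤ)) {k : ℕ}
    (hdiv : (s.factorial : ℤ) * P.leadingCoeff ∣ M * (d : ℤ) ^ k) :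
    ∃ x : ℤ, ¬ M ∣ x ∧ ∀ J : ℕ, M ∣ (d : ℤ) ^ J - 1 →
      ∑ j ∈ range J, Int.fract ((x : ℝ) * (d : ℝ) ^ j / M) ≤
        J * (Real.Gamma (1 + 1 / s) ^ s / (s.factorial * ((d : ℝ) - 1))) := by
  set Q : Polynomial ℤ := P * Polynomial.X ^ (s - P.natDegree) with hQ
  have hQdeg : Q.natDegree = s := by
    rw [hQ, Polynomial.natDegree_mul_X_pow _ hP]
    omega
  have hQlc : Q.coeff s = P.leadingCoeff := by
    have h1 : s = P.natDegree + (s - P.natDegree) := by omega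
    rw [hQ]
    conv_lhs => rw [h1]
    rw [show P.natDegree + (s - P.natDegree) - P.natDegree = s - P.natDegree by omega]
    rw [Polynomial.coeff_mul_X_pow, Polynomial.coeff_natDegree]
  have hQroot : Polynomial.aeval (∑' n : ℕ, ((d : ℝ) ^ (n ^ s))⁻¹) Q = 0 := by
    rw [hQ, map_mul, hroot, zero_mul]
  rw [Polynomial.aeval_eq_sum_range, hQdeg] at hQroot
  simp only [zsmul_eq_mul] at hQroot
  have hlc : P.leadingCoeff ≠ 0 := Polynomial.leadingCoeff_ne_zero.mpr hP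
  rcases lt_or_gt_of_ne hlc with h | h
  · apply coeffs2 hd hs (c := fun k => - Q.coeff k) (M := M) (k := k) _ _ hM hcop
    · simp only [hQlc]
      rw [mul_neg]
      exact (neg_dvd).mpr hdiv
    · simp only [hQlc]; omega
    · push_cast
      simp only [neg_mul, Finset.sum_neg_distrib, neg_eq_zero]
      exact hQroot
  · apply coeffs2 hd hs (c := fun k => Q.coeff k) (M := M) (k := k) _ _ hM hcop
    · simp only [hQlc]; exact hdiv
    · simp only [hQlc]; exact h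
    · exact hQroot

end Pool.Agent.Lib.A7
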