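import Pool.Agent.Lib.MP_a7a9f5_nt.Val

set_option autoImplicit false

namespace Pool.Agent.Lib.A7

open Finset

/-- powers are dense on the multiplicative scale -/
lemma pow_ratio (s : ℕ) {e : ℝ} (he : 0 < e) :
    ∃ y0 : ℕ, 1 ≤ y0 ∧ ∀ y : ℕ, y0 ≤ y → ((y : ℝ) + 1) ^ s ≤ (1 + e) * (y : ℝ) ^ s := by
  have hl : 0 < Real.log (1 + e) := Real.log_pos (by linarith)
  obtain ⟨n, hn⟩ := exists_nat_ge ((s : ℝ) / Real.log (1 + e))
  refine ⟨n + 1, by omega, fun y hy => ?_⟩
  have hy0 : (0 : ℝ) < y := by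
    have : 0 < y := by omega
    exact_mod_cast this
  have h1 : (s : ℝ) / y ≤ Real.log (1 + e) := by
    rw [div_le_iff₀ hy0]
    rw [div_le_iff₀ hl] at hn
    have : (n : ℝ) ≤ y := by
      have : n ≤ y := by omega
      exact_mod_cast this
    nlinarith
  have h2 : (y : ℝ) + 1 = y * (1 + 1 / y) := by field_simp
  have h3 : (1 + 1 / (y : ℝ)) ^ s ≤ 1 + e := by
    have h4 : 1 + 1 / (y : ℝ) ≤ Real.exp (1 / y) := by
      have := Real.add_one_le_exp (1 / (y : ℝ))
      linarith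
    calc (1 + 1 / (y : ℝ)) ^ s ≤ (Real.exp (1 / y)) ^ s := by
          apply pow_le_pow_left₀ (by positivity) h4
      _ = Real.exp (s / y) := by
          rw [← Real.exp_nat_mul]; congr 1; ring
      _ ≤ Real.exp (Real.log (1 + e)) := Real.exp_le_exp.mpr h1
      _ = 1 + e := Real.exp_log (by linarith)
  rw [h2, mul_pow, mul_comm]
  exact mul_le_mul_of_nonneg_right h3 (by positivity)

lemma gap_lemma {s : ℕ} (hs : s ≠ 0) {e : ℝ} (he : 0 < e) (he1 : e < 1) :
    ∃ l0 : ℕ, ∀ l : ℕ, l0 ≤ l → ∀ K : ℕ, (K : ℝ) ≤ e / 4 * l →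
      ∃ y : ℕ, 1 ≤ y ∧ y ^ s + K < l ∧ (l : ℝ) - (y : ℝ) ^ s ≤ e * l := by
  classical
  obtain ⟨y0, hy01, hy0⟩ := pow_ratio s (e := e / 4) (by linarith)
  refine ⟨2 * y0 ^ s + 1, fun l hl K hK => ?_⟩
  have hl1 : (1 : ℝ) ≤ l := by
    have : 1 ≤ l := by omega
    exact_mod_cast this
  have hKl : (K : ℝ) < l := by nlinarith
  have hP0 : (0 : ℕ) ^ s + K < l := by
    rw [zero_pow hs, zero_add]; exact_mod_cast hKl
  set y := Nat.findGreatest (fun y => y ^ s + K < l) l with hy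
  have hPy : y ^ s + K < l := by
    have := Nat.findGreatest_spec (P := fun y => y ^ s + K < l) (Nat.zero_le l) hP0
    exact this
  have hyl : y < l := by
    have : y ≤ y ^ s := Nat.le_self_pow hs _
    omega
  have hnot : ¬ ((y + 1) ^ s + K < l) :=
    Nat.findGreatest_is_greatest (P := fun y => y ^ s + K < l) (Nat.lt_succ_self y) hyl
  push Not at hnot
  have hnotR : (l : ℝ) ≤ ((y : ℝ) + 1) ^ s + K := by exact_mod_cast hnot
  have h1 : (1 - e / 4) * l ≤ ((y : ℝ) + 1) ^ s := by linarith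
  have hyy0 : y0 ≤ y := by
    by_contra hc
    push Not at hc
    have h2 : (y + 1) ^ s ≤ y0 ^ s := Nat.pow_le_pow_left (by omega) s
    have h2R : ((y : ℝ) + 1) ^ s ≤ (y0 : ℝ) ^ s := by exact_mod_cast h2
    have h3 : (2 * (y0 : ℝ) ^ s + 1) ≤ l := by exact_mod_cast hl
    nlinarith
  have h4 := hy0 y hyy0
  refine ⟨y, by omega, hPy, ?_⟩
  have h5 : 0 ≤ (y : ℝ) ^ s := by positivity
  nlinarith

section
variable {d s : ℕ} {c : ℕ → ℤ}

/-- the constant in the tail bound -/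
noncomputable def C1 (d s : ℕ) (c : ℕ → ℤ) : ℝ :=
  (C0 s c : ℝ) * ∑' i : ℕ, ((i : ℝ) + 1) ^ s * (Real.sqrt ((d : ℝ)⁻¹)) ^ i

lemma y_bounds (hd : 2 ≤ d) : 0 < Real.sqrt ((d : ℝ)⁻¹) ∧ Real.sqrt ((d : ℝ)⁻¹) < 1 := by
  have hd' : (2 : ℝ) ≤ d := by exact_mod_cast hd
  constructor
  · apply Real.sqrt_pos.mpr; positivity
  · rw [Real.sqrt_lt' one_pos, one_pow]
    apply inv_lt_one_of_one_lt₀; linarith

lemma summable_y (hd : 2 ≤ d) (s : ℕ) :
    Summable (fun i : ℕ => ((i : ℝ) + 1) ^ s * (Real.sqrt ((d : ℝ)⁻¹)) ^ i) := by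
  obtain ⟨h0, h1⟩ := y_bounds hd
  set y := Real.sqrt ((d : ℝ)⁻¹) with hy
  have h2 : Summable (fun n : ℕ => ((n : ℝ)) ^ s * y ^ n) :=
    summable_pow_mul_geometric_of_norm_lt_one s (by rw [Real.norm_eq_abs, abs_of_pos h0]; exact h1)
  have h3 := (summable_nat_add_iff 1).mpr h2
  have h4 := h3.mul_left (y⁻¹)
  refine h4.congr (fun i => ?_)
  push_cast
  rw [pow_succ]
  field_simp

lemma C1_nonneg (d s : ℕ) (c : ℕ → ℤ) : 0 ≤ C1 d s c := by
  rw [C1]
  apply mul_nonneg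
  · exact_mod_cast C0_nonneg s c
  · exact tsum_nonneg (fun i => by positivity)

/-- truncation of the tail -/
lemma T_trunc (hd : 2 ≤ d) (hs : s ≠ 0)
    (hz : ∑' m, (A s c m : ℝ) * ((d : ℝ)⁻¹) ^ m = 0) (m K : ℕ) :
    |(T d s c m : ℝ) - ∑ j ∈ range K, (A s c (m + 1 + j) : ℝ) * ((d : ℝ)⁻¹) ^ (j + 1)| ≤
      C1 d s c * ((m : ℝ) + 2) ^ s * (Real.sqrt ((d : ℝ)⁻¹)) ^ K := by
  obtain ⟨hS, hT⟩ := T_real hd hs c hz m
  obtain ⟨h0, h1⟩ := y_bounds hd
  set y := Real.sqrt ((d : ℝ)⁻¹) with hy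
  have hd' : (2 : ℝ) ≤ d := by exact_mod_cast hd
  have hx0 : (0 : ℝ) < (d : ℝ)⁻¹ := by positivity
  have hx1 : (d : ℝ)⁻¹ < 1 := by
    apply inv_lt_one_of_one_lt₀; linarith
  have hyy : y * y = (d : ℝ)⁻¹ := Real.mul_self_sqrt hx0.le
  rw [hT, ← hS.sum_add_tsum_nat_add K, add_sub_cancel_left]
  have hterm : ∀ i : ℕ, ‖(A s c (m + 1 + (i + K)) : ℝ) * ((d : ℝ)⁻¹) ^ (i + K + 1)‖ ≤
      (C0 s c : ℝ) * ((m : ℝ) + 2) ^ s * y ^ K * ((((i + K : ℕ) : ℝ) + 1) ^ s * y ^ (i + K)) := by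
    intro i
    rw [norm_mul, Real.norm_eq_abs, Real.norm_eq_abs, abs_of_pos (pow_pos hx0 _)]
    have hA : |(A s c (m + 1 + (i + K)) : ℝ)| ≤
        (C0 s c : ℝ) * (((m + 1 + (i + K) : ℕ) : ℝ) + 1) ^ s := by
      exact_mod_cast abs_A_le hs c (m + 1 + (i + K))
    have hC : (0 : ℝ) ≤ C0 s c := by exact_mod_cast C0_nonneg s c
    have h2 : (((m + 1 + (i + K) : ℕ) : ℝ) + 1) ≤ ((m : ℝ) + 2) * (((i + K : ℕ) : ℝ) + 1) := by
      push_cast
      have : (0 : ℝ) ≤ m := Nat.cast_nonneg _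
      have : (0 : ℝ) ≤ i := Nat.cast_nonneg _
      have : (0 : ℝ) ≤ K := Nat.cast_nonneg _
      nlinarith [mul_nonneg (Nat.cast_nonneg (α := ℝ) m) (Nat.cast_nonneg (α := ℝ) i),
        mul_nonneg (Nat.cast_nonneg (α := ℝ) m) (Nat.cast_nonneg (α := ℝ) K)]
    have h3 : (((m + 1 + (i + K) : ℕ) : ℝ) + 1) ^ s ≤
        ((m : ℝ) + 2) ^ s * (((i + K : ℕ) : ℝ) + 1) ^ s := by
      rw [← mul_pow]
      exact pow_le_pow_left₀ (by positivity) h2 s
    have h4 : ((d : ℝ)⁻¹) ^ (i + K + 1) ≤ y ^ K * y ^ (i + K) := by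
      have h5 : ((d : ℝ)⁻¹) ^ (i + K + 1) ≤ ((d : ℝ)⁻¹) ^ (i + K) :=
        pow_le_pow_of_le_one hx0.le hx1.le (by omega)
      have h6 : ((d : ℝ)⁻¹) ^ (i + K) = y ^ (i + K) * y ^ (i + K) := by
        rw [← hyy, mul_pow]
      have h7 : y ^ (i + K) ≤ y ^ K := pow_le_pow_of_le_one h0.le h1.le (by omega)
      rw [h6] at h5
      exact h5.trans (mul_le_mul_of_nonneg_right h7 (by positivity))
    calc |(A s c (m + 1 + (i + K)) : ℝ)| * ((d : ℝ)⁻¹) ^ (i + K + 1)
        ≤ ((C0 s c : ℝ) * (((m : ℝ) + 2) ^ s * (((i + K : ℕ) : ℝ) + 1) ^ s)) *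
            (y ^ K * y ^ (i + K)) := by
          apply mul_le_mul _ h4 (by positivity) (by positivity)
          exact hA.trans (mul_le_mul_of_nonneg_left h3 hC)
      _ = _ := by ring
  have hSy := summable_y hd s
  have hSyK : Summable (fun i : ℕ => (((i + K : ℕ) : ℝ) + 1) ^ s * y ^ (i + K)) :=
    (summable_nat_add_iff K).mpr hSy
  have hb := tsum_of_norm_bounded (f := fun i => (A s c (m + 1 + (i + K)) : ℝ) *
    ((d : ℝ)⁻¹) ^ (i + K + 1)) (hSyK.mul_left _).hasSum hterm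
  rw [Real.norm_eq_abs] at hb
  refine hb.trans ?_
  rw [tsum_mul_left, C1]
  have h8 : ∑' i : ℕ, (((i + K : ℕ) : ℝ) + 1) ^ s * y ^ (i + K) ≤
      ∑' i : ℕ, ((i : ℝ) + 1) ^ s * y ^ i := by
    rw [← hSy.sum_add_tsum_nat_add K]
    have : 0 ≤ ∑ i ∈ range K, ((i : ℝ) + 1) ^ s * y ^ i :=
      Finset.sum_nonneg (fun i _ => by positivity)
    linarith
  have hC : (0 : ℝ) ≤ C0 s c := by exact_mod_cast C0_nonneg s c
  calc (C0 s c : ℝ) * ((m : ℝ) + 2) ^ s * y ^ K *
        ∑' i : ℕ, (((i + K : ℕ) : ℝ) + 1) ^ s * y ^ (i + K)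
      ≤ (C0 s c : ℝ) * ((m : ℝ) + 2) ^ s * y ^ K * ∑' i : ℕ, ((i : ℝ) + 1) ^ s * y ^ i :=
        mul_le_mul_of_nonneg_left h8 (by positivity)
    _ = _ := by ring

lemma T_nonneg_of (hd : 2 ≤ d) (hs : s ≠ 0)
    (hz : ∑' m, (A s c m : ℝ) * ((d : ℝ)⁻¹) ^ m = 0) {m K : ℕ}
    (hA : ∀ j < K, 0 ≤ A s c (m + 1 + j))
    (hK : C1 d s c * ((m : ℝ) + 2) ^ s * (Real.sqrt ((d : ℝ)⁻¹)) ^ K < 1) : 0 ≤ T d s c m := by
  have h := T_trunc hd hs hz m K
  have h1 : 0 ≤ ∑ j ∈ range K, (A s c (m + 1 + j) : ℝ) * ((d : ℝ)⁻¹) ^ (j + 1) := by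
    apply Finset.sum_nonneg
    intro j hj
    have : (0 : ℝ) ≤ (A s c (m + 1 + j) : ℝ) := by exact_mod_cast hA j (mem_range.mp hj)
    positivity
  have h2 := (abs_le.mp h).1
  have h3 : (-1 : ℝ) < (T d s c m : ℝ) := by linarith
  have h4 : (-1 : ℤ) < T d s c m := by exact_mod_cast h3
  omega

lemma T_pos_pred (hd : 2 ≤ d) {m : ℕ}
    (hpos : 0 < T d s c (m + 1) + A s c (m + 1)) : 1 ≤ T d s c m := by
  have h := T_succ d s c m
  have h1 : (d : ℤ) * T d s c m = T d s c (m + 1) + A s c (m + 1) := by linarith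
  have h2 : 0 < (d : ℤ) * T d s c m := by rw [h1]; exact hpos
  have h3 : (0 : ℤ) < d := by
    have : 0 < d := by omega
    exact_mod_cast this
  by_contra hcon
  push Not at hcon
  have h5 : T d s c m ≤ 0 := by omega
  have h6 : (d : ℤ) * T d s c m ≤ 0 := mul_nonpos_of_nonneg_of_nonpos h3.le h5
  omega

/-- the key positivity statement -/
lemma key1 (hd : 2 ≤ d) (hs : s ≠ 0)
    (hz : ∑' m, (A s c m : ℝ) * ((d : ℝ)⁻¹) ^ m = 0) (hc : 0 < c s)
    {u y K : ℕ} (hu : 0 < E s (s - 1) u) (hy : 1 ≤ y)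
    (hclean : ∀ i, u < i → i ≤ u + y ^ s + K → E s (s - 1) i = 0)
    (hK : C1 d s c * (((u + y ^ s : ℕ) : ℝ) + 2) ^ s * (Real.sqrt ((d : ℝ)⁻¹)) ^ K < 1) :
    ∀ m, u ≤ m → m < u + y ^ s → 1 ≤ T d s c m := by
  have hcl : ∀ i, u < i → i ≤ u + y ^ s + K → 0 ≤ A s c i := by
    intro i h1 h2
    rw [A_eq_of hs c (hclean i h1 h2)]
    exact mul_nonneg hc.le (E_nonneg hs)
  have hys : 1 ≤ y ^ s := Nat.one_le_pow _ _ hy
  have hT0 : 0 ≤ T d s c (u + y ^ s) := by
    apply T_nonneg_of hd hs hz (K := K) _ hK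
    intro j hj
    exact hcl _ (by omega) (by omega)
  have hA0 : 0 < A s c (u + y ^ s) := by
    rw [A_eq_of hs c (hclean _ (by omega) (by omega))]
    apply mul_pos hc
    have := E_pos_add hs hu y
    have h1 : s - 1 + 1 = s := by omega
    rwa [h1] at this
  -- downward induction
  have hdown : ∀ t, t < y ^ s → 1 ≤ T d s c (u + y ^ s - 1 - t) := by
    intro t
    induction t with
    | zero =>
      intro _
      have hidx : u + y ^ s - 1 - 0 + 1 = u + y ^ s := by omega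
      apply T_pos_pred hd
      rw [hidx]; linarith
    | succ t ih =>
      intro ht
      have ih' := ih (by omega)
      have hidx : u + y ^ s - 1 - (t + 1) + 1 = u + y ^ s - 1 - t := by omega
      have hAn : 0 ≤ A s c (u + y ^ s - 1 - t) := hcl _ (by omega) (by omega)
      apply T_pos_pred hd
      rw [hidx]; linarith
  intro m h1 h2
  have := hdown (u + y ^ s - 1 - m) (by omega)
  have hidx : u + y ^ s - 1 - (u + y ^ s - 1 - m) = m := by omega
  rwa [hidx] at this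

open Classical in
/-- few places with T ≤ 0 -/
lemma card_exc (hd : 2 ≤ d) (hs : 2 ≤ s)
    (hz : ∑' m, (A s c m : ℝ) * ((d : ℝ)⁻¹) ^ m = 0) (hc : 0 < c s)
    {e : ℝ} (he : 0 < e) (l0 : ℕ) (X K : ℕ)
    (hl0 : ∀ l : ℕ, l0 ≤ l → ∃ y : ℕ, 1 ≤ y ∧ y ^ s + K < l ∧ (l : ℝ) - (y : ℝ) ^ s ≤ e * l)
    (hK : C1 d s c * ((X : ℝ) ^ s + 2) ^ s * (Real.sqrt ((d : ℝ)⁻¹)) ^ K < 1) :
    (((range (X ^ s)).filter (fun m => T d s c m < 1)).card : ℝ) ≤
      l0 * (((range (X ^ s)).filter (fun m => 0 < E s (s - 1) m)).card : ℝ) + e * (X : ℝ) ^ s := by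
  have hs0 : s ≠ 0 := by omega
  have hS0 : 0 < E s (s - 1) 0 := by
    rw [E_pos_iff hs0]
    exact ⟨fun _ => 0, by simp [hs0]⟩
  have hSN : 0 < E s (s - 1) (X ^ s) := by
    have h1 : 0 < E s 0 0 := by rw [E_zero]; simp
    have h2 := E_pos_add hs0 h1 X
    rw [zero_add] at h2
    simp only [zero_add] at h2
    exact E_pos_mono hs0 (by omega) h2
  set P : ℕ → Prop := fun m => 0 < E s (s - 1) m with hP
  set up : ℕ → ℕ := fun m => Nat.findGreatest P m with hup
  have hup_le : ∀ m, up m ≤ m := fun m => Nat.findGreatest_le m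
  have hup_P : ∀ m, P (up m) := fun m =>
    Nat.findGreatest_spec (P := P) (Nat.zero_le m) hS0
  have hup_max : ∀ m i, up m < i → i ≤ m → ¬ P i := fun m i h1 h2 =>
    Nat.findGreatest_is_greatest h1 h2
  set SN := (range (X ^ s)).filter P with hSN'
  have hmaps : ∀ m ∈ range (X ^ s), up m ∈ SN := by
    intro m hm
    rw [hSN', mem_filter, mem_range]
    exact ⟨lt_of_le_of_lt (hup_le m) (mem_range.mp hm), hup_P m⟩
  -- fibres
  have hfib : ∀ u ∈ SN, (((range (X ^ s)).filter (fun m => T d s c m < 1)).filter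
      (fun m => up m = u)).card ≤
      (l0 : ℝ) + e * (((range (X ^ s)).filter (fun m => up m = u)).card : ℝ) := by
    intro u hu
    rw [hSN', mem_filter, mem_range] at hu
    obtain ⟨huN, huP⟩ := hu
    have hex : ∃ v, u < v ∧ P v := ⟨X ^ s, huN, hSN⟩
    set v := Nat.find hex with hv
    have hv1 : u < v := (Nat.find_spec hex).1
    have hv2 : P v := (Nat.find_spec hex).2
    have hv3 : v ≤ X ^ s := Nat.find_min' hex ⟨huN, hSN⟩
    have hv4 : ∀ i, u < i → i < v → ¬ P i := by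
      intro i h1 h2 h3
      exact Nat.find_min hex h2 ⟨h1, h3⟩
    have hF : (range (X ^ s)).filter (fun m => up m = u) = Ico u v := by
      ext m
      simp only [mem_filter, mem_range, mem_Ico]
      constructor
      · rintro ⟨h1, h2⟩
        have h3 : u ≤ m := by rw [← h2]; exact hup_le m
        refine ⟨h3, ?_⟩
        by_contra h4
        push Not at h4
        exact hup_max m v (by rw [h2]; exact hv1) h4 hv2
      · rintro ⟨h1, h2⟩
        refine ⟨by omega, ?_⟩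
        apply le_antisymm
        · by_contra h3
          push Not at h3
          exact hv4 (up m) h3 (lt_of_le_of_lt (hup_le m) h2) (hup_P m)
        · exact Nat.le_findGreatest h1 huP
    have hFc : (((range (X ^ s)).filter (fun m => up m = u)).card : ℝ) = (v : ℝ) - u := by
      rw [hF, Nat.card_Ico]
      rw [Nat.cast_sub hv1.le]
    have hsub : (((range (X ^ s)).filter (fun m => T d s c m < 1)).filter (fun m => up m = u)) ⊆
        Ico u v := by
      rw [← hF]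
      intro m hm
      simp only [mem_filter] at hm ⊢
      exact ⟨hm.1.1, hm.2⟩
    by_cases hl : l0 ≤ v - u
    · obtain ⟨y, hy1, hy2, hy3⟩ := hl0 (v - u) hl
      have hk : ∀ m, u ≤ m → m < u + y ^ s → 1 ≤ T d s c m := by
        apply key1 hd hs0 hz hc huP hy1 (K := K)
        · intro i h1 h2
          have h3 : ¬ P i := hv4 i h1 (by omega)
          have h4 := E_nonneg (s := s) (k := s - 1) (m := i) hs0
          simp only [hP] at h3
          omega
        · refine lt_of_le_of_lt ?_ hK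
          have h5 : (((u + y ^ s : ℕ) : ℝ) + 2) ≤ (X : ℝ) ^ s + 2 := by
            have : u + y ^ s ≤ X ^ s := by omega
            have : ((u + y ^ s : ℕ) : ℝ) ≤ ((X ^ s : ℕ) : ℝ) := by exact_mod_cast this
            push_cast at this ⊢
            linarith
          have h6 := C1_nonneg d s c
          have h7 := (y_bounds hd).1
          apply mul_le_mul_of_nonneg_right _ (by positivity)
          apply mul_le_mul_of_nonneg_left _ h6
          exact pow_le_pow_left₀ (by positivity) h5 s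
      have hsub2 : (((range (X ^ s)).filter (fun m => T d s c m < 1)).filter
          (fun m => up m = u)) ⊆ Ico (u + y ^ s) v := by
        intro m hm
        have hm1 := hsub hm
        simp only [mem_filter, mem_Ico] at hm hm1 ⊢
        refine ⟨?_, hm1.2⟩
        by_contra h8
        push Not at h8
        have := hk m hm1.1 h8
        omega
      have hcard : ((((range (X ^ s)).filter (fun m => T d s c m < 1)).filter
          (fun m => up m = u)).card : ℝ) ≤ ((v - u : ℕ) : ℝ) - (y : ℝ) ^ s := by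
        have h9 := Finset.card_le_card hsub2
        rw [Nat.card_Ico] at h9
        have h10 : v - (u + y ^ s) = (v - u) - y ^ s := by omega
        rw [h10] at h9
        have h11 : y ^ s ≤ v - u := by omega
        have h12 : (((v - u) - y ^ s : ℕ) : ℝ) = ((v - u : ℕ) : ℝ) - ((y ^ s : ℕ) : ℝ) :=
          Nat.cast_sub h11
        push_cast at h12
        calc _ ≤ (((v - u) - y ^ s : ℕ) : ℝ) := by exact_mod_cast h9
          _ = _ := h12
      refine hcard.trans (hy3.trans ?_)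
      rw [hFc, Nat.cast_sub hv1.le]
      have : (0 : ℝ) ≤ l0 := Nat.cast_nonneg _
      linarith
    · push Not at hl
      have h9 := Finset.card_le_card hsub
      rw [Nat.card_Ico] at h9
      have h10 : ((((range (X ^ s)).filter (fun m => T d s c m < 1)).filter
          (fun m => up m = u)).card : ℝ) ≤ l0 := by
        exact_mod_cast h9.trans hl.le
      have h11 : (0 : ℝ) ≤ e * (((range (X ^ s)).filter (fun m => up m = u)).card : ℝ) := by
        positivity
      linarith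
  have hsum1 : ((range (X ^ s)).filter (fun m => T d s c m < 1)).card =
      ∑ u ∈ SN, (((range (X ^ s)).filter (fun m => T d s c m < 1)).filter
        (fun m => up m = u)).card := by
    apply Finset.card_eq_sum_card_fiberwise
    intro m hm
    rw [Finset.mem_coe, mem_filter] at hm
    exact hmaps m hm.1
  have hsum2 : (range (X ^ s)).card = ∑ u ∈ SN, ((range (X ^ s)).filter (fun m => up m = u)).card := by
    apply Finset.card_eq_sum_card_fiberwise
    intro m hm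
    exact hmaps m hm
  rw [hsum1]
  push_cast
  refine (Finset.sum_le_sum hfib).trans ?_
  rw [Finset.sum_add_distrib, ← Finset.mul_sum, Finset.sum_const, nsmul_eq_mul]
  have h13 : (∑ u ∈ SN, (((range (X ^ s)).filter (fun m => up m = u)).card : ℝ)) = (X : ℝ) ^ s := by
    have : ((∑ u ∈ SN, ((range (X ^ s)).filter (fun m => up m = u)).card : ℕ) : ℝ) =
        ((X ^ s : ℕ) : ℝ) := by
      rw [← hsum2, card_range]
    push_cast at this
    exact this
  rw [h13, mul_comm]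

end

end Pool.Agent.Lib.A7
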