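import Mathlib

set_option autoImplicit false

namespace Pool.Agent.Lib.A7

open Finset

/-- the potential -/
noncomputable def hpot (D v t : ℝ) : ℝ := t / (D - 1) - v * (Real.log t / Real.log D)

noncomputable def vv (D G : ℝ) : ℝ := D ^ G * Real.log D / (D - 1)

noncomputable def lam (D G : ℝ) : ℝ := (1 - D ^ G) / (D - 1) + vv D G * G

variable {D G : ℝ}

lemma logD_pos (hD : 2 ≤ D) : 0 < Real.log D := Real.log_pos (by linarith)

lemma vv_pos (hD : 2 ≤ D) : 0 < vv D G := by
  have := logD_pos hD
  have h1 : 0 < D ^ G := Real.rpow_pos_of_pos (by linarith) _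
  have h2 : 0 < D - 1 := by linarith
  rw [vv]; positivity

lemma lam_nonneg (hD : 2 ≤ D) : 0 ≤ lam D G := by
  have h2 : 0 < D - 1 := by linarith
  have h3 : D ^ G = Real.exp (G * Real.log D) := by
    rw [Real.rpow_def_of_pos (by linarith), mul_comm]
  have h4 : 0 < Real.exp (G * Real.log D) := Real.exp_pos _
  have h5 := Real.add_one_le_exp (-(G * Real.log D))
  have h6 : Real.exp (G * Real.log D) * Real.exp (-(G * Real.log D)) = 1 := by
    rw [← Real.exp_add]; simp
  have h7 : Real.exp (G * Real.log D) * (1 - G * Real.log D) ≤ 1 := by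
    rw [← h6]
    apply mul_le_mul_of_nonneg_left _ h4.le
    linarith
  rw [lam, vv, h3]
  have : (1 - Real.exp (G * Real.log D)) / (D - 1) +
      Real.exp (G * Real.log D) * Real.log D / (D - 1) * G =
      (1 - Real.exp (G * Real.log D) * (1 - G * Real.log D)) / (D - 1) := by
    field_simp
    ring
  rw [this]
  apply div_nonneg _ h2.le
  linarith

lemma value (hD : 2 ≤ D) (hG : 0 < G) : vv D G - lam D G / G = (D ^ G - 1) / (G * (D - 1)) := by
  have h2 : 0 < D - 1 := by linarith
  rw [lam]
  field_simp
  ring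

lemma pot_mul (hD : 2 ≤ D) {v t : ℝ} (ht : 0 < t) : hpot D v (D * t) - hpot D v t = t - v := by
  have h1 := logD_pos hD
  have h2 : 0 < D - 1 := by linarith
  rw [hpot, hpot, Real.log_mul (by linarith) ht.ne']
  field_simp
  ring

/-- tangent line inequality for the logarithm -/
lemma log_tangent (hD : 2 ≤ D) {w : ℝ} (hw : 0 < w) :
    vv D G * (Real.log w / Real.log D) ≤ vv D G * G + (w - D ^ G) / (D - 1) := by
  have h1 := logD_pos hD
  have h2 : 0 < D - 1 := by linarith
  have hDG : 0 < D ^ G := Real.rpow_pos_of_pos (by linarith) _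
  have h3 := Real.log_le_sub_one_of_pos (x := w / D ^ G) (by positivity)
  rw [Real.log_div hw.ne' hDG.ne', Real.log_rpow (by linarith)] at h3
  have h4 : Real.log w / Real.log D ≤ G + (w / D ^ G - 1) / Real.log D := by
    rw [div_le_iff₀ h1, add_mul, div_mul_cancel₀ _ h1.ne']
    linarith
  calc vv D G * (Real.log w / Real.log D) ≤ vv D G * (G + (w / D ^ G - 1) / Real.log D) :=
        mul_le_mul_of_nonneg_left h4 (vv_pos hD).le
    _ = vv D G * G + (w - D ^ G) / (D - 1) := by
        rw [vv]; field_simp

lemma pot_reset (hD : 2 ≤ D) {t t' : ℝ} (ht : 1 ≤ t) (ht' : 1 ≤ t') (hle : t' ≤ D * t) :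
    hpot D (vv D G) t' - hpot D (vv D G) t ≤ t - vv D G + lam D G := by
  have h1 := logD_pos hD
  have h2 : 0 < D - 1 := by linarith
  set w := D * t / t' with hw
  have ht0 : 0 < t := by linarith
  have ht'0 : 0 < t' := by linarith
  have hw1 : 1 ≤ w := by rw [hw, le_div_iff₀ ht'0]; linarith
  have hw0 : 0 < w := by linarith
  have hDt : D * t = w * t' := by rw [hw]; field_simp
  have hlog : Real.log t' = Real.log D + Real.log t - Real.log w := by
    have : Real.log (D * t) = Real.log (w * t') := by rw [hDt]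
    rw [Real.log_mul (by linarith) ht0.ne', Real.log_mul hw0.ne' ht'0.ne'] at this
    linarith
  have h3 := log_tangent (G := G) hD hw0
  have h4 : hpot D (vv D G) t' - hpot D (vv D G) t =
      (t' - t) / (D - 1) - vv D G + vv D G * (Real.log w / Real.log D) := by
    rw [hpot, hpot, hlog]
    field_simp
    ring
  have h5 : (w - 1) * 1 ≤ (w - 1) * t' := mul_le_mul_of_nonneg_left ht' (by linarith)
  have h6 : (t' - t) / (D - 1) = t + (t' - D * t) / (D - 1) := by field_simp; ring
  have h7 : (t' - D * t) / (D - 1) ≤ (1 - w) / (D - 1) := by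
    apply div_le_div_of_nonneg_right _ h2.le
    rw [hDt]; nlinarith
  rw [h4, h6, lam]
  have h8 : (1 - w) / (D - 1) + (w - D ^ G) / (D - 1) = (1 - D ^ G) / (D - 1) := by
    field_simp; ring
  linarith

lemma pot_mono (hD : 2 ≤ D) {a b : ℝ} (ha : D ^ G ≤ a) (hab : a ≤ b) :
    hpot D (vv D G) a ≤ hpot D (vv D G) b := by
  have h1 := logD_pos hD
  have h2 : 0 < D - 1 := by linarith
  have hDG : 0 < D ^ G := Real.rpow_pos_of_pos (by linarith) _
  have ha0 : 0 < a := by linarith
  have hb0 : 0 < b := by linarith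
  have h3 := Real.log_le_sub_one_of_pos (x := b / a) (by positivity)
  rw [Real.log_div hb0.ne' ha0.ne'] at h3
  have h4 : vv D G * (Real.log b / Real.log D) - vv D G * (Real.log a / Real.log D) ≤
      (b - a) / (D - 1) := by
    have h5 : vv D G * (Real.log b / Real.log D) - vv D G * (Real.log a / Real.log D) =
        (vv D G / Real.log D) * (Real.log b - Real.log a) := by field_simp
    have h6 : (0 : ℝ) ≤ vv D G / Real.log D := (div_pos (vv_pos hD) h1).le
    rw [h5]
    refine (mul_le_mul_of_nonneg_left h3 h6).trans ?_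
    have h7 : vv D G / Real.log D * (b / a - 1) = (D ^ G / a) * ((b - a) / (D - 1)) := by
      rw [vv]; field_simp
    rw [h7]
    have h8 : D ^ G / a ≤ 1 := by rw [div_le_one ha0]; exact ha
    have h9 : 0 ≤ (b - a) / (D - 1) := div_nonneg (by linarith) h2.le
    nlinarith
  rw [hpot, hpot]
  have h10 : (b - a) / (D - 1) = b / (D - 1) - a / (D - 1) := by ring
  linarith

/-- clipping -/
noncomputable def cl (K t : ℝ) : ℝ := min (max t 1) K

lemma step (hD : 2 ≤ D) {K t t' : ℝ} (hK1 : 1 ≤ K) (hK : D ^ G ≤ K) (ht : 1 ≤ t) (ht' : 1 ≤ t')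
    (hle : t' ≤ D * t) (r : Prop) [Decidable r] (hr : ¬ r → t' = D * t) :
    vv D G + hpot D (vv D G) (cl K t') - hpot D (vv D G) (cl K t) -
      (if r then lam D G else 0) ≤ t := by
  have hx : cl K t = min t K := by rw [cl, max_eq_left ht]
  have hx' : cl K t' = min t' K := by rw [cl, max_eq_left ht']
  rw [hx, hx']
  have hx1 : 1 ≤ min t K := le_min ht hK1
  have hx1' : 1 ≤ min t' K := le_min ht' hK1
  have hxt : min t K ≤ t := min_le_left _ _
  have hxx : min t' K ≤ D * min t K := by
    rcases le_total t K with h | h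
    · rw [min_eq_left h]; exact (min_le_left _ _).trans hle
    · rw [min_eq_right h]
      refine (min_le_right _ _).trans ?_
      nlinarith
  by_cases hrr : r
  · rw [if_pos hrr]
    have := pot_reset (G := G) hD hx1 hx1' hxx
    linarith
  · rw [if_neg hrr]
    have h1 := pot_mul (v := vv D G) hD (t := min t K) (by linarith)
    have h2 : hpot D (vv D G) (min t' K) ≤ hpot D (vv D G) (D * min t K) := by
      rcases le_total t' K with h | h
      · rw [min_eq_left h, hr hrr]
        have : t ≤ K := by
          have := hr hrr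
          nlinarith
        rw [min_eq_left this]
      · rw [min_eq_right h]
        apply pot_mono hD hK
        have := hxx
        rw [min_eq_right h] at this
        exact this
    linarith

/-- a bound for the potential on clipped values -/
noncomputable def Ch (D G K : ℝ) : ℝ := K / (D - 1) + vv D G * (Real.log K / Real.log D)

lemma pot_bound (hD : 2 ≤ D) {K t : ℝ} (hK1 : 1 ≤ K) :
    |hpot D (vv D G) (cl K t)| ≤ Ch D G K := by
  have h1 := logD_pos hD
  have h2 : 0 < D - 1 := by linarith
  have hx1 : 1 ≤ cl K t := le_min (le_max_right _ _) hK1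
  have hxK : cl K t ≤ K := min_le_right _ _
  have ha : 0 ≤ cl K t / (D - 1) := div_nonneg (by linarith) h2.le
  have hb : cl K t / (D - 1) ≤ K / (D - 1) := div_le_div_of_nonneg_right hxK h2.le
  have hc : 0 ≤ Real.log (cl K t) / Real.log D := div_nonneg (Real.log_nonneg hx1) h1.le
  have hd : Real.log (cl K t) / Real.log D ≤ Real.log K / Real.log D :=
    div_le_div_of_nonneg_right (Real.log_le_log (by linarith) hxK) h1.le
  have hv := (vv_pos (G := G) hD).le
  have he : 0 ≤ vv D G * (Real.log (cl K t) / Real.log D) := mul_nonneg hv hc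
  have hf := mul_le_mul_of_nonneg_left hd hv
  rw [hpot, Ch, abs_le]
  constructor <;> linarith

/-- the averaged inequality -/
lemma lp_sum (hD : 2 ≤ D) {K : ℝ} (hK1 : 1 ≤ K) (hK : D ^ G ≤ K) (N : ℕ) (t : ℕ → ℝ)
    (Good R : ℕ → Prop) [DecidablePred Good] [DecidablePred R]
    (hgood : ∀ m < N, Good m → 1 ≤ t m ∧ 1 ≤ t (m + 1) ∧ t (m + 1) ≤ D * t m ∧
      (¬ R m → t (m + 1) = D * t m)) :
    vv D G * N - lam D G * (((range N).filter (fun m => Good m ∧ R m)).card : ℝ) -
      (vv D G + 2 * Ch D G K) * (((range N).filter (fun m => ¬ Good m)).card : ℝ) - 2 * Ch D G K ≤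
    ∑ m ∈ (range N).filter Good, t m := by
  set H : ℕ → ℝ := fun m => hpot D (vv D G) (cl K (t m)) with hH
  have hHb : ∀ m, |H m| ≤ Ch D G K := fun m => pot_bound hD hK1
  have hv := (vv_pos (G := G) hD).le
  have hl := lam_nonneg (G := G) hD
  have hpt : ∀ m ∈ range N, vv D G + (H (m + 1) - H m) - lam D G * (if Good m ∧ R m then 1 else 0) -
      (vv D G + 2 * Ch D G K) * (if ¬ Good m then 1 else 0) ≤ if Good m then t m else 0 := by
    intro m hm
    by_cases hg : Good m
    · obtain ⟨a1, a2, a3, a4⟩ := hgood m (mem_range.mp hm) hg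
      have := step (G := G) hD hK1 hK a1 a2 a3 (R m) a4
      simp only [hg, true_and, not_true_eq_false, if_true, if_false, mul_zero, sub_zero]
      by_cases hR : R m
      · simp only [hR, if_true, mul_one] at this ⊢
        simp only [hH]; linarith
      · simp only [hR, if_false, mul_zero] at this ⊢
        simp only [hH]; linarith
    · simp only [hg, false_and, if_false, not_false_eq_true, if_true, mul_zero, mul_one]
      have h1 := abs_le.mp (hHb m)
      have h2 := abs_le.mp (hHb (m + 1))
      linarith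
  have hsum := Finset.sum_le_sum hpt
  rw [Finset.sum_filter]
  refine le_trans ?_ hsum
  rw [Finset.sum_sub_distrib, Finset.sum_sub_distrib, Finset.sum_add_distrib,
    Finset.sum_range_sub, ← Finset.mul_sum, ← Finset.mul_sum]
  simp only [Finset.sum_const, card_range, nsmul_eq_mul]
  have e1 : (∑ i ∈ range N, (if Good i ∧ R i then (1 : ℝ) else 0)) =
      (((range N).filter (fun m => Good m ∧ R m)).card : ℝ) := by
    rw [Finset.card_filter]; push_cast; rfl
  have e2 : (∑ i ∈ range N, (if ¬ Good i then (1 : ℝ) else 0)) =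
      (((range N).filter (fun m => ¬ Good m)).card : ℝ) := by
    rw [Finset.card_filter]; push_cast; rfl
  rw [e1, e2]
  have h1 := abs_le.mp (hHb 0)
  have h2 := abs_le.mp (hHb N)
  have : (N : ℝ) * vv D G = vv D G * N := mul_comm _ _
  linarith

end Pool.Agent.Lib.A7
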