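import Pool.Agent.Lib.MP_a7a9f5_nt.Main

set_option autoImplicit false

namespace Pool.Agent.Lib.A7

open Finset Filter Topology

section
variable {d s : ℕ} {c : ℕ → ℤ}

/-- the geometric factor beats the polynomial one -/
lemma z_tendsto (hd : 2 ≤ d) :
    Tendsto (fun K : ℕ => C1 d s c * (((K : ℝ) ^ 2) ^ s + 2) ^ s * (Real.sqrt ((d : ℝ)⁻¹)) ^ K)
      atTop (𝓝 0) := by
  obtain ⟨hy0, hy1⟩ := y_bounds hd
  have h1 : Tendsto (fun K : ℕ => C1 d s c * 3 ^ s * ((K : ℝ) ^ (2 * s * s) *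
      (Real.sqrt ((d : ℝ)⁻¹)) ^ K)) atTop (𝓝 0) := by
    have := tendsto_pow_const_mul_const_pow_of_abs_lt_one (2 * s * s)
      (r := Real.sqrt ((d : ℝ)⁻¹)) (by rw [abs_of_pos hy0]; exact hy1)
    simpa using this.const_mul (C1 d s c * 3 ^ s)
  refine squeeze_zero' (Eventually.of_forall fun K => ?_) ?_ h1
  · have := C1_nonneg d s c
    positivity
  · filter_upwards [eventually_ge_atTop 1] with K hK
    have hK' : (1 : ℝ) ≤ K := by exact_mod_cast hK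
    have h2 : (1 : ℝ) ≤ ((K : ℝ) ^ 2) ^ s := one_le_pow₀ (one_le_pow₀ hK')
    have h3 : (((K : ℝ) ^ 2) ^ s + 2) ^ s ≤ 3 ^ s * (K : ℝ) ^ (2 * s * s) := by
      calc (((K : ℝ) ^ 2) ^ s + 2) ^ s ≤ (3 * ((K : ℝ) ^ 2) ^ s) ^ s := by
            apply pow_le_pow_left₀ (by positivity); linarith
        _ = 3 ^ s * (K : ℝ) ^ (2 * s * s) := by
            rw [mul_pow, ← pow_mul, ← pow_mul, ← mul_assoc]
    have h4 := C1_nonneg d s c
    calc C1 d s c * (((K : ℝ) ^ 2) ^ s + 2) ^ s * (Real.sqrt ((d : ℝ)⁻¹)) ^ K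
        ≤ C1 d s c * (3 ^ s * (K : ℝ) ^ (2 * s * s)) * (Real.sqrt ((d : ℝ)⁻¹)) ^ K := by
          apply mul_le_mul_of_nonneg_right _ (by positivity)
          exact mul_le_mul_of_nonneg_left h3 h4
      _ = _ := by ring

/-- the inequality in the limit, for a fixed `e` -/
lemma limit_e (hd : 2 ≤ d) (hs : 2 ≤ s)
    (hz : ∑' m, (A s c m : ℝ) * ((d : ℝ)⁻¹) ^ m = 0) (hc : 0 < c s)
    {q : ℤ} (hq : 0 < q) (hq1 : q ∣ c s * (s.factorial : ℤ)) {k : ℕ} (hq2 : q ∣ (d : ℤ) ^ k)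
    {G Kc : ℝ} (hK1 : 1 ≤ Kc) (hKc : (d : ℝ) ^ G ≤ Kc) {γ C2 : ℝ}
    (hcount : ∀ Y : ℕ, 1 ≤ Y → ∑ m ∈ range (Y ^ s), (E s s m : ℝ) ≤
      γ * (Y : ℝ) ^ s + C2 * (Y : ℝ) ^ (s - 1))
    {e : ℝ} (he : 0 < e) (he1 : e < 1) :
    vv d G ≤ lam d G * (γ / s.factorial) + (vv d G + 2 * Ch d G Kc) * (2 * e) +
      (1 / q) * (1 / ((d : ℝ) - 1) * (c s * γ)) := by
  have hs0 : s ≠ 0 := by omega
  obtain ⟨l1, hl1⟩ := gap_lemma hs0 he he1
  -- the limiting function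
  set F : ℝ × ℝ × ℝ × ℝ → ℝ := fun t =>
    lam d G * ((γ * t.2.1 ^ s + C2 * (t.2.1 ^ (s - 1) * t.1)) / s.factorial +
        (s : ℝ) ^ 2 * (t.2.1 ^ (s - 1) * t.1)) +
      (vv d G + 2 * Ch d G Kc) * (2 * (t.2.2.2 + e + k * t.1 ^ s +
        k * ((1 + (s : ℝ) ^ 2) * t.1)) + t.1 ^ s + t.2.1 ^ (s - 1) * t.1) +
      2 * Ch d G Kc * t.1 ^ s +
      (1 / q) * (1 / ((d : ℝ) - 1) * (c s * (γ * t.2.1 ^ s + C2 * (t.2.1 ^ (s - 1) * t.1)) +
        C0 s c * (t.2.1 ^ (s - 1) * t.1)) + t.2.2.1) with hF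
  have hFc : Continuous F := by
    rw [hF]; fun_prop
  have hF0 : F (0, 1, 0, 0) = lam d G * (γ / s.factorial) +
      (vv d G + 2 * Ch d G Kc) * (2 * e) + (1 / q) * (1 / ((d : ℝ) - 1) * (c s * γ)) := by
    simp only [hF, one_pow, zero_pow hs0]
    ring
  have hp : Tendsto (fun K : ℕ => 1 / (K : ℝ) ^ 2) atTop (𝓝 0) := by
    have := (tendsto_one_div_atTop_nhds_zero_nat (𝕜 := ℝ)).pow 2
    simpa using this
  have hr : Tendsto (fun K : ℕ => 1 + 1 / (K : ℝ) ^ 2) atTop (𝓝 1) := by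
    simpa using hp.const_add 1
  have hw : Tendsto (fun K : ℕ => ((l1 : ℝ) + 4 / e * K + 1) * (1 / (K : ℝ) ^ 2)) atTop (𝓝 0) := by
    have h1 : Tendsto (fun K : ℕ => ((l1 : ℝ) + 1) * (1 / (K : ℝ) ^ 2) + 4 / e * (1 / (K : ℝ)))
        atTop (𝓝 0) := by
      simpa using (hp.const_mul ((l1 : ℝ) + 1)).add
        ((tendsto_one_div_atTop_nhds_zero_nat (𝕜 := ℝ)).const_mul (4 / e))
    refine h1.congr' ?_
    filter_upwards [eventually_ge_atTop 1] with K hK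
    have hK' : (K : ℝ) ≠ 0 := by
      have : (1 : ℝ) ≤ K := by exact_mod_cast hK
      linarith
    field_simp
    ring
  have hz' := z_tendsto (s := s) (c := c) hd
  have hlim : Tendsto (fun K : ℕ => F (1 / (K : ℝ) ^ 2, 1 + 1 / (K : ℝ) ^ 2,
      C1 d s c * (((K : ℝ) ^ 2) ^ s + 2) ^ s * (Real.sqrt ((d : ℝ)⁻¹)) ^ K,
      ((l1 : ℝ) + 4 / e * K + 1) * (1 / (K : ℝ) ^ 2))) atTop (𝓝 (F (0, 1, 0, 0))) :=
    (hFc.tendsto _).comp (hp.prodMk_nhds (hr.prodMk_nhds (hz'.prodMk_nhds hw)))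
  rw [← hF0]
  refine ge_of_tendsto hlim ?_
  have hev := hz'.eventually (gt_mem_nhds (zero_lt_one))
  filter_upwards [eventually_ge_atTop 1, hev] with K hK hzK
  have hK' : (1 : ℝ) ≤ K := by exact_mod_cast hK
  have hK0 : (0 : ℝ) < (K : ℝ) ^ 2 := by positivity
  set X : ℝ := (K : ℝ) ^ 2 with hX
  set l0 : ℕ := max l1 ⌈4 / e * K⌉₊ with hl0
  have hl0le : (l0 : ℝ) ≤ (l1 : ℝ) + 4 / e * K + 1 := by
    rw [hl0]
    push_cast
    apply max_le
    · have : 0 ≤ 4 / e * (K : ℝ) := by positivity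
      linarith
    · have h1 := (Nat.ceil_lt_add_one (show (0 : ℝ) ≤ 4 / e * K by positivity)).le
      have : (0 : ℝ) ≤ l1 := Nat.cast_nonneg _
      linarith
  have hfs := finite_stage hd hs hz hc hq hq1 hq2 (G := G) hK1 hKc he l0 (K ^ 2) K
    (Nat.le_self_pow (by norm_num) K)
    (by
      intro l hl
      apply hl1 l ((le_max_left _ _).trans hl) K
      have h1 : (⌈4 / e * (K : ℝ)⌉₊ : ℝ) ≤ l := by
        exact_mod_cast (le_max_right _ _).trans hl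
      have h2 := (Nat.le_ceil (4 / e * (K : ℝ))).trans h1
      have h3 : (K : ℝ) = e / 4 * (4 / e * K) := by field_simp
      rw [h3]
      exact mul_le_mul_of_nonneg_left h2 (by positivity))
    (by push_cast; exact hzK)
    (hcount (K ^ 2 + 1) (by omega))
  push_cast at hfs
  rw [← hX] at hfs
  set z : ℝ := C1 d s c * (X ^ s + 2) ^ s * (Real.sqrt ((d : ℝ)⁻¹)) ^ K with hzdef
  set p : ℝ := 1 / X with hpdef
  have hXp : X * p = 1 := by rw [hpdef]; field_simp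
  have hXr : X + 1 = X * (1 + p) := by rw [mul_add, hXp, mul_one]
  have e1 : (X + 1) ^ s = X ^ s * (1 + p) ^ s := by rw [hXr, mul_pow]
  have e3 : X ^ (s - 1) = X ^ s * p := by
    obtain ⟨t, rfl⟩ : ∃ t, s = t + 1 := ⟨s - 1, by omega⟩
    rw [Nat.add_sub_cancel, pow_succ, mul_assoc, hXp, mul_one]
  have e2 : (X + 1) ^ (s - 1) = X ^ s * ((1 + p) ^ (s - 1) * p) := by
    rw [hXr, mul_pow, e3]; ring
  have e4 : (1 : ℝ) = X ^ s * p ^ s := by rw [← mul_pow, hXp, one_pow]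
  have hXs : 0 < X ^ s := by positivity
  have hv := (vv_pos (G := G) (D := (d : ℝ)) (by exact_mod_cast hd)).le
  have hCh : 0 ≤ Ch d G Kc :=
    (abs_nonneg _).trans (pot_bound (G := G) (t := 0) (D := (d : ℝ)) (by exact_mod_cast hd) hK1)
  have hw' : (l0 : ℝ) * X ^ (s - 1) ≤ X ^ s * (((l1 : ℝ) + 4 / e * K + 1) * p) := by
    rw [e3]
    have : 0 ≤ X ^ s * p := by positivity
    nlinarith
  have key : vv d G * X ^ s ≤ F (p, 1 + p, z, ((l1 : ℝ) + 4 / e * K + 1) * p) * X ^ s := by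
    refine hfs.trans ?_
    have h5 := mul_le_mul_of_nonneg_left hw' (show 0 ≤ (vv d G + 2 * Ch d G Kc) * 2 by positivity)
    have h6 : F (p, 1 + p, z, ((l1 : ℝ) + 4 / e * K + 1) * p) * X ^ s =
        lam d G * ((γ * (X + 1) ^ s + C2 * (X + 1) ^ (s - 1)) / s.factorial +
          (s : ℝ) ^ 2 * (X + 1) ^ (s - 1)) +
        (vv d G + 2 * Ch d G Kc) * (2 * (X ^ s * (((l1 : ℝ) + 4 / e * K + 1) * p) + e * X ^ s +
          k * 1 + k * ((1 + (s : ℝ) ^ 2) * X ^ (s - 1))) + 1 + (X + 1) ^ (s - 1)) +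
        2 * Ch d G Kc * 1 +
        (1 / q) * (1 / ((d : ℝ) - 1) * (c s * (γ * (X + 1) ^ s + C2 * (X + 1) ^ (s - 1)) +
          C0 s c * (X + 1) ^ (s - 1)) + X ^ s * z) := by
      rw [e1, e2, e3]
      simp only [hF]
      linear_combination (-(vv d G + 2 * Ch d G Kc) * (2 * k + 1) - 2 * Ch d G Kc) * e4
    rw [h6]
    nlinarith [h5]
  exact le_of_mul_le_mul_right key hXs

/-- the main inequality -/
theorem core (hd : 2 ≤ d) (hs : 2 ≤ s)
    (hz : ∑' m, (A s c m : ℝ) * ((d : ℝ)⁻¹) ^ m = 0) (hc : 0 < c s)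
    {q : ℤ} (hq : 0 < q) (hq1 : q ∣ c s * (s.factorial : ℤ)) {k : ℕ} (hq2 : q ∣ (d : ℤ) ^ k)
    {γ C2 : ℝ} (hγ : 0 < γ)
    (hcount : ∀ Y : ℕ, 1 ≤ Y → ∑ m ∈ range (Y ^ s), (E s s m : ℝ) ≤
      γ * (Y : ℝ) ^ s + C2 * (Y : ℝ) ^ (s - 1)) :
    (d : ℝ) ^ ((s.factorial : ℝ) / γ) - 1 ≤ (c s : ℝ) * s.factorial / q := by
  have hd' : (2 : ℝ) ≤ d := by exact_mod_cast hd
  have hd1 : (0 : ℝ) < (d : ℝ) - 1 := by linarith
  have hf : (0 : ℝ) < s.factorial := by exact_mod_cast s.factorial_pos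
  have hqR : (0 : ℝ) < q := by exact_mod_cast hq
  set G : ℝ := (s.factorial : ℝ) / γ with hG
  have hG0 : 0 < G := by positivity
  set Kc : ℝ := max 1 ((d : ℝ) ^ G) with hKc
  set B : ℝ := vv d G + 2 * Ch d G Kc with hB
  set R : ℝ := lam d G * (γ / s.factorial) + (1 / q) * (1 / ((d : ℝ) - 1) * (c s * γ)) with hR
  have h1 : ∀ e : ℝ, 0 < e → e < 1 → vv d G ≤ R + B * (2 * e) := by
    intro e he he1
    have := limit_e hd hs hz hc hq hq1 hq2 (G := G) (le_max_left 1 ((d : ℝ) ^ G))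
      (le_max_right 1 ((d : ℝ) ^ G)) hcount he he1
    rw [← hKc, ← hB] at this
    rw [hR]; linarith
  have h2 : vv d G ≤ R := by
    have hl : Tendsto (fun e : ℝ => R + B * (2 * e)) (𝓝[>] 0) (𝓝 R) := by
      have : Continuous (fun e : ℝ => R + B * (2 * e)) := by fun_prop
      have h3 := (this.tendsto 0).mono_left (nhdsWithin_le_nhds (s := Set.Ioi (0 : ℝ)))
      simpa using h3
    refine ge_of_tendsto hl ?_
    filter_upwards [Ioo_mem_nhdsGT (show (0 : ℝ) < 1 by norm_num)] with e he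
    exact h1 e he.1 he.2
  have h3 := value (D := (d : ℝ)) hd' hG0
  have h4 : lam d G * (γ / s.factorial) = lam d G / G := by
    rw [hG]; field_simp
  rw [hR, h4] at h2
  have h5 : ((d : ℝ) ^ G - 1) / (G * ((d : ℝ) - 1)) ≤ (1 / q) * (1 / ((d : ℝ) - 1) * (c s * γ)) := by
    rw [← h3]; linarith
  rw [div_le_iff₀ (by positivity)] at h5
  refine h5.trans (le_of_eq ?_)
  rw [hG]
  field_simp

end

end Pool.Agent.Lib.A7
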