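import Pool.Agent.Lib.MP_a7a9f5_nt.Orbit

set_option autoImplicit false

namespace Pool.Agent.Lib.A7

open Finset Filter Topology

section
variable {d s : ℕ} {c : ℕ → ℤ}

/-- the inequality in the limit, for a fixed `e` -/
lemma limit2_e (hd : 2 ≤ d) (hs : 2 ≤ s)
    (hz : ∑' m, (A s c m : ℝ) * ((d : ℝ)⁻¹) ^ m = 0) (hc : 0 < c s)
    {q M' : ℤ} (hq : 0 < q) (hM' : 0 < M') (hqM : c s * (s.factorial : ℤ) = q * M')
    {k : ℕ} (hq2 : q ∣ (d : ℤ) ^ k) {J : ℕ} (hJ : 1 ≤ J) {μ : ℝ} (hμ : 0 ≤ μ)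
    (hH : ∀ x : ℤ, J * μ ≤ ∑ i ∈ range J, (rr M' (x * (d : ℤ) ^ i) : ℝ))
    {γ C2 : ℝ}
    (hcount : ∀ Y : ℕ, 1 ≤ Y → ∑ m ∈ range (Y ^ s), (E s s m : ℝ) ≤
      γ * (Y : ℝ) ^ s + C2 * (Y : ℝ) ^ (s - 1))
    {e : ℝ} (he : 0 < e) (he1 : e < 1) :
    q * μ ≤ (q * μ) * (J * e) + 1 / ((d : ℝ) - 1) * (c s * γ) := by
  have hs0 : s ≠ 0 := by omega
  obtain ⟨l1, hl1⟩ := gap_lemma hs0 he he1
  -- the limiting function
  set F : ℝ × ℝ × ℝ × ℝ → ℝ := fun t =>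
    (q * μ) * (J * t.1 ^ s + (J * (t.2.2.2 + e + k * t.1 ^ s + k * ((1 + (s : ℝ) ^ 2) * t.1)) +
      (k * t.1 ^ s + k * ((1 + (s : ℝ) ^ 2) * t.1)) + J * ((1 + (s : ℝ) ^ 2) * t.1))) +
      (1 / ((d : ℝ) - 1) * (c s * (γ * t.2.1 ^ s + C2 * (t.2.1 ^ (s - 1) * t.1)) +
        C0 s c * (t.2.1 ^ (s - 1) * t.1)) + t.2.2.1) with hF
  have hFc : Continuous F := by
    rw [hF]; fun_prop
  have hF0 : F (0, 1, 0, 0) = (q * μ) * (J * e) + 1 / ((d : ℝ) - 1) * (c s * γ) := by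
    simp only [hF, one_pow, zero_pow hs0]
    ring
  have hp : Tendsto (fun K : ℕ => 1 / (K : ℝ) ^ 2) atTop (𝓝 0) := by
    have := (tendsto_one_div_atTop_nhds_zero_nat (𝕜 := ℝ)).pow 2
    simpa using this
  have hr : Tendsto (fun K : ℕ => 1 + 1 / (K : ℝ) ^ 2) atTop (𝓝 1) := by
    simpa using hp.const_add 1
  have hw : Tendsto (fun K : ℕ => ((l1 : ℝ) + 4 / e * K + 1) * (1 / (K : ℝ) ^ 2)) atTop (𝓝 0) := by
    have h1 : Tendsto (fun K : ℕ => ((l1 : ℝ) + 1) * (1 / (K : ℝ) ^ 2) + 4 / e * (1 / (K : ℝ)))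
        atTop (𝓝 0) := by
      simpa using (hp.const_mul ((l1 : ℝ) + 1)).add
        ((tendsto_one_div_atTop_nhds_zero_nat (𝕜 := ℝ)).const_mul (4 / e))
    refine h1.congr' ?_
    filter_upwards [eventually_ge_atTop 1] with K hK
    have hK' : (K : ℝ) ≠ 0 := by
      have : (1 : ℝ) ≤ K := by exact_mod_cast hK
      linarith
    field_simp
    ring
  have hz' := z_tendsto (s := s) (c := c) hd
  have hlim : Tendsto (fun K : ℕ => F (1 / (K : ℝ) ^ 2, 1 + 1 / (K : ℝ) ^ 2,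
      C1 d s c * (((K : ℝ) ^ 2) ^ s + 2) ^ s * (Real.sqrt ((d : ℝ)⁻¹)) ^ K,
      ((l1 : ℝ) + 4 / e * K + 1) * (1 / (K : ℝ) ^ 2))) atTop (𝓝 (F (0, 1, 0, 0))) :=
    (hFc.tendsto _).comp (hp.prodMk_nhds (hr.prodMk_nhds (hz'.prodMk_nhds hw)))
  rw [← hF0]
  refine ge_of_tendsto hlim ?_
  have hev := hz'.eventually (gt_mem_nhds (zero_lt_one))
  filter_upwards [eventually_ge_atTop 1, hev] with K hK hzK
  have hK' : (1 : ℝ) ≤ K := by exact_mod_cast hK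
  have hK0 : (0 : ℝ) < (K : ℝ) ^ 2 := by positivity
  set X : ℝ := (K : ℝ) ^ 2 with hX
  set l0 : ℕ := max l1 ⌈4 / e * K⌉₊ with hl0
  have hl0le : (l0 : ℝ) ≤ (l1 : ℝ) + 4 / e * K + 1 := by
    rw [hl0]
    push_cast
    apply max_le
    · have : 0 ≤ 4 / e * (K : ℝ) := by positivity
      linarith
    · have h1 := (Nat.ceil_lt_add_one (show (0 : ℝ) ≤ 4 / e * K by positivity)).le
      have : (0 : ℝ) ≤ l1 := Nat.cast_nonneg _
      linarith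
  have hfs := stage2 hd hs hz hc hq hM' hqM hq2 hJ hμ hH he l0 (K ^ 2) K
    (Nat.le_self_pow (by norm_num) K)
    (by
      intro l hl
      apply hl1 l ((le_max_left _ _).trans hl) K
      have h1 : (⌈4 / e * (K : ℝ)⌉₊ : ℝ) ≤ l := by
        exact_mod_cast (le_max_right _ _).trans hl
      have h2 := (Nat.le_ceil (4 / e * (K : ℝ))).trans h1
      have h3 : (K : ℝ) = e / 4 * (4 / e * K) := by field_simp
      rw [h3]
      exact mul_le_mul_of_nonneg_left h2 (by positivity))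
    (by push_cast; exact hzK)
    (hcount (K ^ 2 + 1) (by omega))
  push_cast at hfs
  rw [← hX] at hfs
  set z : ℝ := C1 d s c * (X ^ s + 2) ^ s * (Real.sqrt ((d : ℝ)⁻¹)) ^ K with hzdef
  set p : ℝ := 1 / X with hpdef
  have hXp : X * p = 1 := by rw [hpdef]; field_simp
  have hXr : X + 1 = X * (1 + p) := by rw [mul_add, hXp, mul_one]
  have e1 : (X + 1) ^ s = X ^ s * (1 + p) ^ s := by rw [hXr, mul_pow]
  have e3 : X ^ (s - 1) = X ^ s * p := by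
    obtain ⟨t, rfl⟩ : ∃ t, s = t + 1 := ⟨s - 1, by omega⟩
    rw [Nat.add_sub_cancel, pow_succ, mul_assoc, hXp, mul_one]
  have e2 : (X + 1) ^ (s - 1) = X ^ s * ((1 + p) ^ (s - 1) * p) := by
    rw [hXr, mul_pow, e3]; ring
  have e4 : (1 : ℝ) = X ^ s * p ^ s := by rw [← mul_pow, hXp, one_pow]
  have hXs : 0 < X ^ s := by positivity
  have hqμ : 0 ≤ (q : ℝ) * μ := mul_nonneg (by exact_mod_cast hq.le) hμ
  have hw' : (l0 : ℝ) * X ^ (s - 1) ≤ X ^ s * (((l1 : ℝ) + 4 / e * K + 1) * p) := by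
    rw [e3]
    have : 0 ≤ X ^ s * p := by positivity
    nlinarith
  have key : (q * μ) * X ^ s ≤ F (p, 1 + p, z, ((l1 : ℝ) + 4 / e * K + 1) * p) * X ^ s := by
    refine hfs.trans ?_
    have h5 := mul_le_mul_of_nonneg_left hw' (show 0 ≤ (q * μ) * (J : ℝ) by positivity)
    have h6 : F (p, 1 + p, z, ((l1 : ℝ) + 4 / e * K + 1) * p) * X ^ s =
        (q * μ) * (J * 1 +
        (J * (X ^ s * (((l1 : ℝ) + 4 / e * K + 1) * p) + e * X ^ s + k * 1 +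
          k * ((1 + (s : ℝ) ^ 2) * X ^ (s - 1))) +
        (k * 1 + k * ((1 + (s : ℝ) ^ 2) * X ^ (s - 1))) +
        J * ((1 + (s : ℝ) ^ 2) * X ^ (s - 1)))) +
        (1 / ((d : ℝ) - 1) * (c s * (γ * (X + 1) ^ s + C2 * (X + 1) ^ (s - 1)) +
          C0 s c * (X + 1) ^ (s - 1)) + X ^ s * z) := by
      rw [e1, e2, e3]
      simp only [hF]
      linear_combination (-(q * μ) * (J + J * k + k)) * e4
    rw [h6]
    nlinarith [h5]
  exact le_of_mul_le_mul_right key hXs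

/-- the orbit inequality -/
theorem core2 (hd : 2 ≤ d) (hs : 2 ≤ s)
    (hz : ∑' m, (A s c m : ℝ) * ((d : ℝ)⁻¹) ^ m = 0) (hc : 0 < c s)
    {q M' : ℤ} (hq : 0 < q) (hM' : 0 < M') (hqM : c s * (s.factorial : ℤ) = q * M')
    {k : ℕ} (hq2 : q ∣ (d : ℤ) ^ k) {J : ℕ} (hJ : 1 ≤ J) {μ : ℝ} (hμ : 0 ≤ μ)
    (hH : ∀ x : ℤ, J * μ ≤ ∑ i ∈ range J, (rr M' (x * (d : ℤ) ^ i) : ℝ))
    {γ C2 : ℝ}
    (hcount : ∀ Y : ℕ, 1 ≤ Y → ∑ m ∈ range (Y ^ s), (E s s m : ℝ) ≤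
      γ * (Y : ℝ) ^ s + C2 * (Y : ℝ) ^ (s - 1)) :
    μ ≤ (M' : ℝ) * (γ / (s.factorial * ((d : ℝ) - 1))) := by
  have hd' : (2 : ℝ) ≤ d := by exact_mod_cast hd
  have hd1 : (0 : ℝ) < (d : ℝ) - 1 := by linarith
  have hf : (0 : ℝ) < s.factorial := by exact_mod_cast s.factorial_pos
  have hqR : (0 : ℝ) < q := by exact_mod_cast hq
  have h2 : q * μ ≤ 1 / ((d : ℝ) - 1) * (c s * γ) := by
    have hl : Tendsto (fun e : ℝ => (q * μ) * (J * e) + 1 / ((d : ℝ) - 1) * (c s * γ)) (𝓝[>] 0)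
        (𝓝 (1 / ((d : ℝ) - 1) * (c s * γ))) := by
      have : Continuous (fun e : ℝ => (q * μ) * (J * e) + 1 / ((d : ℝ) - 1) * (c s * γ)) := by
        fun_prop
      have h3 := (this.tendsto 0).mono_left (nhdsWithin_le_nhds (s := Set.Ioi (0 : ℝ)))
      simpa using h3
    refine ge_of_tendsto hl ?_
    filter_upwards [Ioo_mem_nhdsGT (show (0 : ℝ) < 1 by norm_num)] with e he
    exact limit2_e hd hs hz hc hq hM' hqM hq2 hJ hμ hH hcount he.1 he.2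
  have h3 : (c s : ℝ) * s.factorial = q * M' := by exact_mod_cast hqM
  have h4 : 1 / ((d : ℝ) - 1) * (c s * γ) =
      q * ((M' : ℝ) * (γ / (s.factorial * ((d : ℝ) - 1)))) := by
    rw [← mul_assoc (q : ℝ), ← h3]
    field_simp
  rw [h4] at h2
  exact le_of_mul_le_mul_left h2 hqR

end

end Pool.Agent.Lib.A7
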