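import Pool.Agent.Lib.MP_a7a9f5_nt.Div
import Pool.Agent.Lib.MP_a7a9f5_nt.LP

set_option autoImplicit false

namespace Pool.Agent.Lib.A7

open Finset Filter Topology

section
variable {d s : ℕ} {c : ℕ → ℤ}

lemma add_le_succ_pow (hs : 2 ≤ s) (X : ℕ) : X ^ s + X ≤ (X + 1) ^ s := by
  obtain ⟨t, rfl⟩ : ∃ t, s = t + 1 := ⟨s - 1, by omega⟩
  have h1 : X ^ t ≤ (X + 1) ^ t := Nat.pow_le_pow_left (by omega) t
  have h2 : X + 1 ≤ (X + 1) ^ t := Nat.le_self_pow (by omega) _
  calc X ^ (t + 1) + X = X * X ^ t + X := by rw [pow_succ]; ring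
    _ ≤ X * (X + 1) ^ t + (X + 1) ^ t := by
        apply Nat.add_le_add (Nat.mul_le_mul_left _ h1); omega
    _ = (X + 1) ^ (t + 1) := by rw [pow_succ]; ring

/-- upper bound for the sum of T -/
lemma upper (hd : 2 ≤ d) (hs : 2 ≤ s)
    (hz : ∑' m, (A s c m : ℝ) * ((d : ℝ)⁻¹) ^ m = 0) (hc : 0 < c s)
    (Good : ℕ → Prop) [DecidablePred Good] {X K : ℕ} (hKX : K ≤ X) :
    ∑ m ∈ (range (X ^ s)).filter Good, (T d s c m : ℝ) ≤
      1 / ((d : ℝ) - 1) * (∑ m ∈ range ((X + 1) ^ s), ((c s : ℝ) * E s s m + L s c m)) +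
      (X : ℝ) ^ s * (C1 d s c * ((X : ℝ) ^ s + 2) ^ s * (Real.sqrt ((d : ℝ)⁻¹)) ^ K) := by
  have hs0 : s ≠ 0 := by omega
  have hd' : (2 : ℝ) ≤ d := by exact_mod_cast hd
  have hx0 : (0 : ℝ) < (d : ℝ)⁻¹ := by positivity
  have hx1 : (d : ℝ)⁻¹ < 1 := by
    apply inv_lt_one_of_one_lt₀; linarith
  set x := (d : ℝ)⁻¹ with hx
  set W : ℕ → ℝ := fun m => (c s : ℝ) * E s s m + L s c m with hW
  have hcR : (0 : ℝ) < c s := by exact_mod_cast hc
  have hW0 : ∀ m, 0 ≤ W m := by
    intro m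
    have h1 : (0 : ℝ) ≤ E s s m := by exact_mod_cast E_nonneg hs0
    have h2 : (0 : ℝ) ≤ L s c m := by exact_mod_cast L_nonneg hs0 c m
    simp only [hW]; positivity
  have hAW : ∀ m, (A s c m : ℝ) ≤ W m := by
    intro m
    have := A_le hs0 c m
    simp only [hW]
    exact_mod_cast this
  set tb : ℝ := C1 d s c * ((X : ℝ) ^ s + 2) ^ s * (Real.sqrt x) ^ K with htb
  have hy0 := (y_bounds hd).1
  have htb0 : 0 ≤ tb := by
    have := C1_nonneg d s c
    rw [htb]; positivity
  have hterm : ∀ m ∈ range (X ^ s), (T d s c m : ℝ) ≤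
      (∑ j ∈ range K, W (m + 1 + j) * x ^ (j + 1)) + tb := by
    intro m hm
    have hmX : (m : ℝ) ≤ (X : ℝ) ^ s := by
      have : m ≤ X ^ s := (mem_range.mp hm).le
      exact_mod_cast this
    have h1 := (abs_le.mp (T_trunc hd hs0 hz m K)).2
    have h2 : ∑ j ∈ range K, (A s c (m + 1 + j) : ℝ) * x ^ (j + 1) ≤
        ∑ j ∈ range K, W (m + 1 + j) * x ^ (j + 1) :=
      Finset.sum_le_sum (fun j _ => mul_le_mul_of_nonneg_right (hAW _) (by positivity))
    have h3 : C1 d s c * ((m : ℝ) + 2) ^ s * (Real.sqrt x) ^ K ≤ tb := by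
      rw [htb]
      apply mul_le_mul_of_nonneg_right _ (by positivity)
      apply mul_le_mul_of_nonneg_left _ (C1_nonneg d s c)
      exact pow_le_pow_left₀ (by positivity) (by linarith) s
    linarith
  have hpos : ∀ m, 0 ≤ (∑ j ∈ range K, W (m + 1 + j) * x ^ (j + 1)) + tb := by
    intro m
    have : 0 ≤ ∑ j ∈ range K, W (m + 1 + j) * x ^ (j + 1) :=
      Finset.sum_nonneg (fun j _ => mul_nonneg (hW0 _) (by positivity))
    linarith
  have step1 : ∑ m ∈ (range (X ^ s)).filter Good, (T d s c m : ℝ) ≤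
      ∑ m ∈ range (X ^ s), ((∑ j ∈ range K, W (m + 1 + j) * x ^ (j + 1)) + tb) := by
    refine (Finset.sum_le_sum (fun m hm => hterm m (mem_filter.mp hm).1)).trans ?_
    exact Finset.sum_le_sum_of_subset_of_nonneg (filter_subset _ _) (fun m _ _ => hpos m)
  refine step1.trans ?_
  rw [Finset.sum_add_distrib, Finset.sum_const, card_range, nsmul_eq_mul, Finset.sum_comm]
  push_cast
  have hshift : ∀ j ∈ range K, ∑ m ∈ range (X ^ s), W (m + 1 + j) * x ^ (j + 1) ≤
      (∑ m ∈ range ((X + 1) ^ s), W m) * x ^ (j + 1) := by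
    intro j hj
    have hjK : j < K := mem_range.mp hj
    rw [← Finset.sum_mul]
    apply mul_le_mul_of_nonneg_right _ (by positivity)
    have h1 : ∑ m ∈ range (X ^ s), W (m + 1 + j) =
        ∑ m ∈ (range (X ^ s)).image (fun m => m + 1 + j), W m := by
      rw [Finset.sum_image]
      intro a _ b _ hab
      simp only at hab
      omega
    rw [h1]
    apply Finset.sum_le_sum_of_subset_of_nonneg
    · intro m hm
      rw [mem_image] at hm
      obtain ⟨a, ha, rfl⟩ := hm
      rw [mem_range] at ha ⊢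
      have := add_le_succ_pow hs X
      omega
    · intro m _ _
      exact hW0 m
  have hgeo : ∑ j ∈ range K, x ^ (j + 1) ≤ 1 / ((d : ℝ) - 1) := by
    have h1 : Summable (fun j : ℕ => x ^ (j + 1)) :=
      (summable_nat_add_iff 1).mpr (summable_geometric_of_lt_one hx0.le hx1)
    have h2 := h1.sum_le_tsum (range K) (fun j _ => by positivity)
    refine h2.trans (le_of_eq ?_)
    have h3 : ∑' j : ℕ, x ^ (j + 1) = x * ∑' j : ℕ, x ^ j := by
      rw [← tsum_mul_left]
      exact tsum_congr (fun j => by rw [pow_succ]; ring)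
    rw [h3, tsum_geometric_of_lt_one hx0.le hx1, hx]
    have : (d : ℝ) - 1 ≠ 0 := by linarith
    have : (d : ℝ) ≠ 0 := by linarith
    field_simp
  have hS0 : 0 ≤ ∑ m ∈ range ((X + 1) ^ s), W m := Finset.sum_nonneg (fun m _ => hW0 m)
  have step2 : ∑ j ∈ range K, ∑ m ∈ range (X ^ s), W (m + 1 + j) * x ^ (j + 1) ≤
      1 / ((d : ℝ) - 1) * ∑ m ∈ range ((X + 1) ^ s), W m := by
    refine (Finset.sum_le_sum hshift).trans ?_
    rw [← Finset.mul_sum, mul_comm]
    exact mul_le_mul_of_nonneg_right hgeo hS0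
  linarith

open Classical in
/-- the inequality at a finite stage -/
lemma finite_stage (hd : 2 ≤ d) (hs : 2 ≤ s)
    (hz : ∑' m, (A s c m : ℝ) * ((d : ℝ)⁻¹) ^ m = 0) (hc : 0 < c s)
    {q : ℤ} (hq : 0 < q) (hq1 : q ∣ c s * (s.factorial : ℤ)) {k : ℕ} (hq2 : q ∣ (d : ℤ) ^ k)
    {G Kc : ℝ} (hK1 : 1 ≤ Kc) (hKc : (d : ℝ) ^ G ≤ Kc)
    {e : ℝ} (he : 0 < e) (l0 X K : ℕ) (hKX : K ≤ X)
    (hl0 : ∀ l : ℕ, l0 ≤ l → ∃ y : ℕ, 1 ≤ y ∧ y ^ s + K < l ∧ (l : ℝ) - (y : ℝ) ^ s ≤ e * l)
    (hK : C1 d s c * ((X : ℝ) ^ s + 2) ^ s * (Real.sqrt ((d : ℝ)⁻¹)) ^ K < 1)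
    {SE : ℝ} (hSE : ∑ m ∈ range ((X + 1) ^ s), (E s s m : ℝ) ≤ SE) :
    vv d G * (X : ℝ) ^ s ≤
      lam d G * (SE / s.factorial + (s : ℝ) ^ 2 * ((X : ℝ) + 1) ^ (s - 1)) +
      (vv d G + 2 * Ch d G Kc) * (2 * (l0 * (X : ℝ) ^ (s - 1) + e * (X : ℝ) ^ s + k +
        k * ((1 + (s : ℝ) ^ 2) * (X : ℝ) ^ (s - 1))) + 1 + ((X : ℝ) + 1) ^ (s - 1)) +
      2 * Ch d G Kc +
      (1 / q) * (1 / ((d : ℝ) - 1) * (c s * SE + C0 s c * ((X : ℝ) + 1) ^ (s - 1)) +
        (X : ℝ) ^ s * (C1 d s c * ((X : ℝ) ^ s + 2) ^ s * (Real.sqrt ((d : ℝ)⁻¹)) ^ K)) := by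
  have hs0 : s ≠ 0 := by omega
  have hd' : (2 : ℝ) ≤ d := by exact_mod_cast hd
  have hqR : (0 : ℝ) < q := by exact_mod_cast hq
  have hcR : (0 : ℝ) < c s := by exact_mod_cast hc
  set Good : ℕ → Prop := fun m => q ≤ T d s c m ∧ q ≤ T d s c (m + 1) ∧ E s (s - 1) (m + 1) = 0
    with hGood
  set R : ℕ → Prop := fun m => E s s (m + 1) ≠ 0 with hR
  have hgood : ∀ m < X ^ s, Good m → 1 ≤ (T d s c m : ℝ) / q ∧ 1 ≤ (T d s c (m + 1) : ℝ) / q ∧
      (T d s c (m + 1) : ℝ) / q ≤ d * ((T d s c m : ℝ) / q) ∧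
      (¬ R m → (T d s c (m + 1) : ℝ) / q = d * ((T d s c m : ℝ) / q)) := by
    intro m _ hg
    obtain ⟨h1, h2, h3⟩ := hg
    have h1R : (q : ℝ) ≤ T d s c m := by exact_mod_cast h1
    have h2R : (q : ℝ) ≤ T d s c (m + 1) := by exact_mod_cast h2
    have hT : (T d s c (m + 1) : ℝ) = d * T d s c m - c s * E s s (m + 1) := by
      have := T_succ d s c m
      rw [A_eq_of hs0 c h3] at this
      exact_mod_cast this
    have hE : (0 : ℝ) ≤ E s s (m + 1) := by exact_mod_cast E_nonneg hs0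
    refine ⟨by rw [le_div_iff₀ hqR]; linarith, by rw [le_div_iff₀ hqR]; linarith, ?_, ?_⟩
    · rw [← mul_div_assoc]
      apply div_le_div_of_nonneg_right _ hqR.le
      rw [hT]
      have := mul_nonneg hcR.le hE
      linarith
    · intro hRm
      simp only [hR, ne_eq, not_not] at hRm
      rw [hT, hRm, ← mul_div_assoc]
      simp
  have hlp := lp_sum (D := (d : ℝ)) (G := G) hd' hK1 hKc (X ^ s)
    (fun m => (T d s c m : ℝ) / q) Good R hgood
  have hup := upper hd hs hz hc Good hKX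
  -- resets
  have hRc : (((range (X ^ s)).filter (fun m => Good m ∧ R m)).card : ℝ) ≤
      SE / s.factorial + (s : ℝ) ^ 2 * ((X : ℝ) + 1) ^ (s - 1) := by
    have h1 : ((range (X ^ s)).filter (fun m => Good m ∧ R m)).card ≤
        ((range ((X + 1) ^ s)).filter (fun m => E s s m ≠ 0)).card := by
      apply Finset.card_le_card_of_injOn (fun m => m + 1)
      · intro m hm
        rw [Finset.mem_coe, mem_filter, mem_range] at hm
        rw [Finset.mem_coe, mem_filter, mem_range]
        refine ⟨?_, hm.2.2⟩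
        show m + 1 < (X + 1) ^ s
        have := add_le_succ_pow hs X
        have hX : X ≠ 0 := by
          rintro rfl
          rw [zero_pow hs0] at hm
          omega
        omega
      · intro a _ b _ hab
        simp only at hab
        omega
    have h2 := card_reset (s := s) hs0 (X + 1)
    have h3 := card_NI_le (s := s) hs0 (X + 1)
    have h3R : (((range ((X + 1) ^ s)).filter (fun m => NonInj s s m)).card : ℝ) ≤
        (s : ℝ) ^ 2 * ((X : ℝ) + 1) ^ (s - 1) := by exact_mod_cast h3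
    have hf : (0 : ℝ) < s.factorial := by exact_mod_cast s.factorial_pos
    have h4 : (((range ((X + 1) ^ s)).filter (fun m => E s s m ≠ 0)).card : ℝ) ≤
        SE / s.factorial + (s : ℝ) ^ 2 * ((X : ℝ) + 1) ^ (s - 1) := by
      have h5 : (s.factorial : ℝ) *
          (((range ((X + 1) ^ s)).filter (fun m => E s s m ≠ 0)).card : ℝ) ≤
          SE + s.factorial * ((s : ℝ) ^ 2 * ((X : ℝ) + 1) ^ (s - 1)) := by
        refine h2.trans ?_
        have := mul_le_mul_of_nonneg_left h3R hf.le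
        linarith
      have h6 : SE + s.factorial * ((s : ℝ) ^ 2 * ((X : ℝ) + 1) ^ (s - 1)) =
          s.factorial * (SE / s.factorial + (s : ℝ) ^ 2 * ((X : ℝ) + 1) ^ (s - 1)) := by
        field_simp
      rw [h6] at h5
      exact le_of_mul_le_mul_left h5 hf
    have h1R : (((range (X ^ s)).filter (fun m => Good m ∧ R m)).card : ℝ) ≤
        (((range ((X + 1) ^ s)).filter (fun m => E s s m ≠ 0)).card : ℝ) := by exact_mod_cast h1
    exact h1R.trans h4
  -- bad places
  have hTq : (((range (X ^ s)).filter (fun m => T d s c m < q)).card : ℝ) ≤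
      l0 * (X : ℝ) ^ (s - 1) + e * (X : ℝ) ^ s + k +
        k * ((1 + (s : ℝ) ^ 2) * (X : ℝ) ^ (s - 1)) := by
    have h1 : (range (X ^ s)).filter (fun m => T d s c m < q) ⊆
        (range (X ^ s)).filter (fun m => T d s c m < 1) ∪
        (range (X ^ s)).filter (fun m => ¬ q ∣ T d s c m) := by
      intro m hm
      rw [mem_filter] at hm
      rw [mem_union, mem_filter, mem_filter]
      by_cases h2 : T d s c m < 1
      · left; exact ⟨hm.1, h2⟩
      · right
        refine ⟨hm.1, fun h3 => ?_⟩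
        have := Int.le_of_dvd (by omega) h3
        omega
    have h2 := (Finset.card_le_card h1).trans (Finset.card_union_le _ _)
    have h3 := card_exc hd hs hz hc he l0 X K hl0 hK
    have h4 := card_bad (d := d) (c := c) hs0 hq1 hq2 (X ^ s)
    have h5 := card_S_le (s := s) hs0 X
    have h6 := card_NI_le (s := s) hs0 X
    have h5R : (((range (X ^ s)).filter (fun m => 0 < E s (s - 1) m)).card : ℝ) ≤
        (X : ℝ) ^ (s - 1) := by exact_mod_cast h5
    have h6R : (((range (X ^ s)).filter (fun m => NonInj s s m)).card : ℝ) ≤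
        (s : ℝ) ^ 2 * (X : ℝ) ^ (s - 1) := by exact_mod_cast h6
    have h4R : (((range (X ^ s)).filter (fun m => ¬ q ∣ T d s c m)).card : ℝ) ≤
        k + k * ((((range (X ^ s)).filter (fun m => 0 < E s (s - 1) m)).card : ℝ) +
        (((range (X ^ s)).filter (fun m => NonInj s s m)).card : ℝ)) := by exact_mod_cast h4
    have h2R : (((range (X ^ s)).filter (fun m => T d s c m < q)).card : ℝ) ≤
        (((range (X ^ s)).filter (fun m => T d s c m < 1)).card : ℝ) +
        (((range (X ^ s)).filter (fun m => ¬ q ∣ T d s c m)).card : ℝ) := by exact_mod_cast h2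
    have hk0 : (0 : ℝ) ≤ k := Nat.cast_nonneg _
    have hl00 : (0 : ℝ) ≤ l0 := Nat.cast_nonneg _
    have h7 : (k : ℝ) * ((((range (X ^ s)).filter (fun m => 0 < E s (s - 1) m)).card : ℝ) +
        (((range (X ^ s)).filter (fun m => NonInj s s m)).card : ℝ)) ≤
        k * ((1 + (s : ℝ) ^ 2) * (X : ℝ) ^ (s - 1)) := by
      apply mul_le_mul_of_nonneg_left _ hk0
      linarith
    have h8 := mul_le_mul_of_nonneg_left h5R hl00
    linarith
  have hBc : (((range (X ^ s)).filter (fun m => ¬ Good m)).card : ℝ) ≤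
      2 * (l0 * (X : ℝ) ^ (s - 1) + e * (X : ℝ) ^ s + k +
        k * ((1 + (s : ℝ) ^ 2) * (X : ℝ) ^ (s - 1))) + 1 + ((X : ℝ) + 1) ^ (s - 1) := by
    have h1 : (range (X ^ s)).filter (fun m => ¬ Good m) ⊆
        ((range (X ^ s)).filter (fun m => T d s c m < q) ∪
        (range (X ^ s)).filter (fun m => T d s c (m + 1) < q)) ∪
        (range (X ^ s)).filter (fun m => E s (s - 1) (m + 1) ≠ 0) := by
      intro m hm
      rw [mem_filter] at hm
      simp only [mem_union, mem_filter]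
      obtain ⟨h2, h3⟩ := hm
      simp only [hGood] at h3
      by_cases h4 : q ≤ T d s c m
      · by_cases h5 : q ≤ T d s c (m + 1)
        · right; exact ⟨h2, fun h6 => h3 ⟨h4, h5, h6⟩⟩
        · left; right; exact ⟨h2, by omega⟩
      · left; left; exact ⟨h2, by omega⟩
    have h2 : ((range (X ^ s)).filter (fun m => T d s c (m + 1) < q)).card ≤
        ((range (X ^ s)).filter (fun m => T d s c m < q)).card + 1 := by
      have : ((range (X ^ s)).filter (fun m => T d s c (m + 1) < q)).card ≤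
          (insert (X ^ s) ((range (X ^ s)).filter (fun m => T d s c m < q))).card := by
        apply Finset.card_le_card_of_injOn (fun m => m + 1)
        · intro m hm
          rw [Finset.mem_coe, mem_filter, mem_range] at hm
          rw [Finset.mem_coe, mem_insert, mem_filter, mem_range]
          by_cases h5 : m + 1 = X ^ s
          · left; exact h5
          · right; exact ⟨show m + 1 < X ^ s by omega, hm.2⟩
        · intro a _ b _ hab
          simp only at hab
          omega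
      exact this.trans (Finset.card_insert_le _ _)
    have h3 : ((range (X ^ s)).filter (fun m => E s (s - 1) (m + 1) ≠ 0)).card ≤
        (X + 1) ^ (s - 1) := by
      refine le_trans ?_ (card_S_le (s := s) hs0 (X + 1))
      apply Finset.card_le_card_of_injOn (fun m => m + 1)
      · intro m hm
        rw [Finset.mem_coe, mem_filter, mem_range] at hm
        rw [Finset.mem_coe, mem_filter, mem_range]
        refine ⟨?_, lt_of_le_of_ne (E_nonneg hs0) (Ne.symm hm.2)⟩
        show m + 1 < (X + 1) ^ s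
        have := add_le_succ_pow hs X
        have hX : X ≠ 0 := by
          rintro rfl
          rw [zero_pow hs0] at hm
          omega
        omega
      · intro a _ b _ hab
        simp only at hab
        omega
    have h4 := (Finset.card_le_card h1).trans ((Finset.card_union_le _ _).trans
      (Nat.add_le_add_right (Finset.card_union_le _ _) _))
    have h4R : (((range (X ^ s)).filter (fun m => ¬ Good m)).card : ℝ) ≤
        (((range (X ^ s)).filter (fun m => T d s c m < q)).card : ℝ) +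
        (((range (X ^ s)).filter (fun m => T d s c (m + 1) < q)).card : ℝ) +
        (((range (X ^ s)).filter (fun m => E s (s - 1) (m + 1) ≠ 0)).card : ℝ) := by
      exact_mod_cast h4
    have h2R : (((range (X ^ s)).filter (fun m => T d s c (m + 1) < q)).card : ℝ) ≤
        (((range (X ^ s)).filter (fun m => T d s c m < q)).card : ℝ) + 1 := by exact_mod_cast h2
    have h3R : (((range (X ^ s)).filter (fun m => E s (s - 1) (m + 1) ≠ 0)).card : ℝ) ≤
        ((X : ℝ) + 1) ^ (s - 1) := by exact_mod_cast h3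
    linarith
  have hv := (vv_pos (G := G) hd').le
  have hl := lam_nonneg (G := G) hd'
  have hCh : 0 ≤ Ch d G Kc := (abs_nonneg _).trans (pot_bound (G := G) (t := 0) hd' hK1)
  have e1 := mul_le_mul_of_nonneg_left hRc hl
  have e2 := mul_le_mul_of_nonneg_left hBc (by linarith : 0 ≤ vv d G + 2 * Ch d G Kc)
  have e3 : ∑ m ∈ (range (X ^ s)).filter Good, (T d s c m : ℝ) / q =
      (1 / q) * ∑ m ∈ (range (X ^ s)).filter Good, (T d s c m : ℝ) := by
    rw [Finset.mul_sum]
    exact Finset.sum_congr rfl (fun m _ => by ring)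
  have e4 : ∑ m ∈ range ((X + 1) ^ s), ((c s : ℝ) * E s s m + L s c m) ≤
      c s * SE + C0 s c * ((X : ℝ) + 1) ^ (s - 1) := by
    rw [Finset.sum_add_distrib, ← Finset.mul_sum]
    have h1 := mul_le_mul_of_nonneg_left hSE hcR.le
    have h2 := sum_L_le hs0 c (X + 1) (by omega)
    have h2R : ∑ m ∈ range ((X + 1) ^ s), (L s c m : ℝ) ≤ C0 s c * ((X : ℝ) + 1) ^ (s - 1) := by
      exact_mod_cast h2
    linarith
  have e5 : ∑ m ∈ (range (X ^ s)).filter Good, (T d s c m : ℝ) ≤
      1 / ((d : ℝ) - 1) * (c s * SE + C0 s c * ((X : ℝ) + 1) ^ (s - 1)) +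
      (X : ℝ) ^ s * (C1 d s c * ((X : ℝ) ^ s + 2) ^ s * (Real.sqrt ((d : ℝ)⁻¹)) ^ K) := by
    refine hup.trans ?_
    have h3 : (0 : ℝ) ≤ 1 / ((d : ℝ) - 1) := by
      apply div_nonneg zero_le_one; linarith
    have := mul_le_mul_of_nonneg_left e4 h3
    linarith
  have e6 := mul_le_mul_of_nonneg_left e5 (by positivity : (0 : ℝ) ≤ 1 / q)
  rw [e3] at hlp
  push_cast at hlp
  linarith

end

end Pool.Agent.Lib.A7
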