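import Pool.Agent.Lib.MP_a7a9f5_nt.Limit

set_option autoImplicit false

namespace Pool.Agent.Lib.A7

open Finset Filter Topology

/-- the representative of `y` modulo `M` in `1..M` -/
def rr (M y : ℤ) : ℤ := (y - 1) % M + 1

lemma rr_congr {M y z : ℤ} (h : M ∣ y - z) : rr M y = rr M z := by
  have h1 : z - 1 ≡ y - 1 [ZMOD M] := by
    rw [Int.modEq_iff_dvd]
    have : y - 1 - (z - 1) = y - z := by ring
    rw [this]; exact h
  rw [rr, rr, h1]

lemma rr_le {M y : ℤ} (hM : 0 < M) (hy : 1 ≤ y) : rr M y ≤ y := by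
  have h1 := Int.emod_add_mul_ediv (y - 1) M
  have h2 : 0 ≤ (y - 1) / M := Int.ediv_nonneg (by omega) hM.le
  have h3 : 0 ≤ M * ((y - 1) / M) := mul_nonneg hM.le h2
  rw [rr]; omega

lemma rr_pos {M y : ℤ} (hM : 0 < M) : 1 ≤ rr M y := by
  have := Int.emod_nonneg (y - 1) hM.ne'
  rw [rr]; omega

section
variable {d s : ℕ} {c : ℕ → ℤ}

/-- a good stretch follows the orbit -/
lemma orbit_le {q M' : ℤ} (hq : 0 < q) (hM' : 0 < M')
    {J m : ℕ} (h1 : ∀ i, i < J → q ≤ T d s c (m + i))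
    (h3 : ∀ i, i < J → q * M' ∣ A s c (m + 1 + i)) {x : ℤ} (hx : T d s c m = q * x) :
    ∀ i, i < J → q * rr M' (x * (d : ℤ) ^ i) ≤ T d s c (m + i) := by
  have hind : ∀ i, i < J → ∃ z : ℤ, T d s c (m + i) = q * (x * (d : ℤ) ^ i - M' * z) := by
    intro i
    induction i with
    | zero => intro _; exact ⟨0, by simp [hx]⟩
    | succ i ih =>
      intro hi
      obtain ⟨z, hz⟩ := ih (by omega)
      obtain ⟨w, hw⟩ := h3 i (by omega)
      refine ⟨d * z + w, ?_⟩
      have hT := T_succ d s c (m + i)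
      have e1 : m + (i + 1) = m + i + 1 := by ring
      have e2 : m + i + 1 = m + 1 + i := by ring
      rw [e1, hT, hz, e2, hw, pow_succ]
      ring
  intro i hi
  obtain ⟨z, hz⟩ := hind i hi
  have h4 := h1 i hi
  rw [hz] at h4 ⊢
  have h5 : 1 ≤ x * (d : ℤ) ^ i - M' * z := by
    have : q * 1 ≤ q * (x * (d : ℤ) ^ i - M' * z) := by rw [mul_one]; exact h4
    exact le_of_mul_le_mul_left this hq
  have h6 : rr M' (x * (d : ℤ) ^ i) = rr M' (x * (d : ℤ) ^ i - M' * z) :=
    rr_congr ⟨z, by ring⟩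
  rw [h6]
  exact mul_le_mul_of_nonneg_left (rr_le hM' h5) hq.le

open Classical in
/-- the finite stage for orbits -/
lemma stage2 (hd : 2 ≤ d) (hs : 2 ≤ s)
    (hz : ∑' m, (A s c m : ℝ) * ((d : ℝ)⁻¹) ^ m = 0) (hc : 0 < c s)
    {q M' : ℤ} (hq : 0 < q) (hM' : 0 < M') (hqM : c s * (s.factorial : ℤ) = q * M')
    {k : ℕ} (hq2 : q ∣ (d : ℤ) ^ k) {J : ℕ} (hJ : 1 ≤ J) {μ : ℝ} (hμ : 0 ≤ μ)
    (hH : ∀ x : ℤ, J * μ ≤ ∑ i ∈ range J, (rr M' (x * (d : ℤ) ^ i) : ℝ))
    {e : ℝ} (he : 0 < e) (l0 X K : ℕ) (hKX : K ≤ X)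
    (hl0 : ∀ l : ℕ, l0 ≤ l → ∃ y : ℕ, 1 ≤ y ∧ y ^ s + K < l ∧ (l : ℝ) - (y : ℝ) ^ s ≤ e * l)
    (hK : C1 d s c * ((X : ℝ) ^ s + 2) ^ s * (Real.sqrt ((d : ℝ)⁻¹)) ^ K < 1)
    {SE : ℝ} (hSE : ∑ m ∈ range ((X + 1) ^ s), (E s s m : ℝ) ≤ SE) :
    (q * μ) * (X : ℝ) ^ s ≤ (q * μ) * (J +
        (J * (l0 * (X : ℝ) ^ (s - 1) + e * (X : ℝ) ^ s + k +
          k * ((1 + (s : ℝ) ^ 2) * (X : ℝ) ^ (s - 1))) +
        (k + k * ((1 + (s : ℝ) ^ 2) * (X : ℝ) ^ (s - 1))) +
        J * ((1 + (s : ℝ) ^ 2) * (X : ℝ) ^ (s - 1)))) +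
      (1 / ((d : ℝ) - 1) * (c s * SE + C0 s c * ((X : ℝ) + 1) ^ (s - 1)) +
        (X : ℝ) ^ s * (C1 d s c * ((X : ℝ) ^ s + 2) ^ s * (Real.sqrt ((d : ℝ)⁻¹)) ^ K)) := by
  have hs0 : s ≠ 0 := by omega
  have hd' : (2 : ℝ) ≤ d := by exact_mod_cast hd
  have hqR : (0 : ℝ) < q := by exact_mod_cast hq
  have hcR : (0 : ℝ) < c s := by exact_mod_cast hc
  have hJR : (0 : ℝ) < J := by exact_mod_cast hJ
  have hq1 : q ∣ c s * (s.factorial : ℤ) := ⟨M', hqM⟩
  set N := X ^ s with hN
  set SB := (range N).filter (fun m => 0 < E s (s - 1) m ∨ NonInj s s m) with hSB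
  set TB := (range N).filter (fun m => T d s c m < q) with hTB
  set QB := (range N).filter (fun m => ¬ q ∣ T d s c m) with hQB
  have hk0 : (0 : ℝ) ≤ k := Nat.cast_nonneg _
  have hSBc : (SB.card : ℝ) ≤ (1 + (s : ℝ) ^ 2) * (X : ℝ) ^ (s - 1) := by
    have h1 : SB ⊆ (range N).filter (fun m => 0 < E s (s - 1) m) ∪
        (range N).filter (fun m => NonInj s s m) := by
      intro m hm
      rw [hSB, mem_filter] at hm
      rw [mem_union, mem_filter, mem_filter]
      rcases hm.2 with h | h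
      · left; exact ⟨hm.1, h⟩
      · right; exact ⟨hm.1, h⟩
    have h2 := (Finset.card_le_card h1).trans (Finset.card_union_le _ _)
    have h5 := card_S_le (s := s) hs0 X
    have h6 := card_NI_le (s := s) hs0 X
    have h7 : SB.card ≤ X ^ (s - 1) + s ^ 2 * X ^ (s - 1) := h2.trans (Nat.add_le_add h5 h6)
    have h8 : (SB.card : ℝ) ≤ (X : ℝ) ^ (s - 1) + (s : ℝ) ^ 2 * (X : ℝ) ^ (s - 1) := by
      exact_mod_cast h7
    linarith
  have hQBc : (QB.card : ℝ) ≤ k + k * ((1 + (s : ℝ) ^ 2) * (X : ℝ) ^ (s - 1)) := by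
    have h4 := card_bad (d := d) (c := c) hs0 hq1 hq2 N
    have h5 := card_S_le (s := s) hs0 X
    have h6 := card_NI_le (s := s) hs0 X
    have h7 : QB.card ≤ k + k * (X ^ (s - 1) + s ^ 2 * X ^ (s - 1)) :=
      h4.trans (Nat.add_le_add_left (Nat.mul_le_mul_left _ (Nat.add_le_add h5 h6)) _)
    have h8 : (QB.card : ℝ) ≤ k + k * ((X : ℝ) ^ (s - 1) + (s : ℝ) ^ 2 * (X : ℝ) ^ (s - 1)) := by
      exact_mod_cast h7
    have h9 : (X : ℝ) ^ (s - 1) + (s : ℝ) ^ 2 * (X : ℝ) ^ (s - 1) =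
        (1 + (s : ℝ) ^ 2) * (X : ℝ) ^ (s - 1) := by ring
    rw [h9] at h8
    exact h8
  have hTBc : (TB.card : ℝ) ≤ l0 * (X : ℝ) ^ (s - 1) + e * (X : ℝ) ^ s + k +
          k * ((1 + (s : ℝ) ^ 2) * (X : ℝ) ^ (s - 1)) := by
    have h1 : TB ⊆ (range N).filter (fun m => T d s c m < 1) ∪ QB := by
      intro m hm
      rw [hTB, mem_filter] at hm
      rw [mem_union, mem_filter, hQB, mem_filter]
      by_cases h2 : T d s c m < 1
      · left; exact ⟨hm.1, h2⟩
      · right
        refine ⟨hm.1, fun h3 => ?_⟩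
        have := Int.le_of_dvd (by omega) h3
        omega
    have h2 := (Finset.card_le_card h1).trans (Finset.card_union_le _ _)
    have h3 := card_exc hd hs hz hc he l0 X K hl0 hK
    have h5 := card_S_le (s := s) hs0 X
    have h5R : (((range (X ^ s)).filter (fun m => 0 < E s (s - 1) m)).card : ℝ) ≤
        (X : ℝ) ^ (s - 1) := by exact_mod_cast h5
    have hl00 : (0 : ℝ) ≤ l0 := Nat.cast_nonneg _
    have h8 := mul_le_mul_of_nonneg_left h5R hl00
    have h2R : (TB.card : ℝ) ≤ (((range N).filter (fun m => T d s c m < 1)).card : ℝ) +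
        (QB.card : ℝ) := by exact_mod_cast h2
    rw [hN] at h2R
    linarith
  -- the starting places of good stretches
  set GS := (range (N - J)).filter (fun m => (∀ i, i < J → q ≤ T d s c (m + i)) ∧ q ∣ T d s c m ∧
    ∀ i, i < J → ¬ (0 < E s (s - 1) (m + 1 + i) ∨ NonInj s s (m + 1 + i))) with hGS
  have hcount : (N : ℝ) ≤ GS.card + (J + (J * TB.card + QB.card + J * SB.card)) := by
    have h1 : range (N - J) ⊆ GS ∪ ((range J ×ˢ TB).image (fun p => p.2 - p.1) ∪ QB ∪
        (range J ×ˢ SB).image (fun p => p.2 - 1 - p.1)) := by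
      intro m hm
      rw [mem_range] at hm
      by_cases hg : m ∈ GS
      · exact mem_union_left _ hg
      · apply mem_union_right
        rw [hGS, mem_filter, mem_range] at hg
        by_cases g1 : ∀ i, i < J → q ≤ T d s c (m + i)
        · by_cases g2 : q ∣ T d s c m
          · have g3 : ¬ ∀ i, i < J → ¬ (0 < E s (s - 1) (m + 1 + i) ∨ NonInj s s (m + 1 + i)) :=
              fun h => hg ⟨hm, g1, g2, h⟩
            push Not at g3
            obtain ⟨i, hi, hi2⟩ := g3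
            apply mem_union_right
            rw [mem_image]
            refine ⟨(i, m + 1 + i), ?_, by simp only; omega⟩
            rw [mem_product, hSB, mem_filter, mem_range, mem_range]
            exact ⟨hi, (show m + 1 + i < N by omega), hi2⟩
          · apply mem_union_left
            apply mem_union_right
            rw [hQB, mem_filter, mem_range]
            exact ⟨by omega, g2⟩
        · push Not at g1
          obtain ⟨i, hi, hi2⟩ := g1
          apply mem_union_left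
          apply mem_union_left
          rw [mem_image]
          refine ⟨(i, m + i), ?_, by simp only; omega⟩
          rw [mem_product, hTB, mem_filter, mem_range, mem_range]
          exact ⟨hi, (show m + i < N by omega), hi2⟩
    have h2 := Finset.card_le_card h1
    have h3 := (Finset.card_union_le GS ((range J ×ˢ TB).image (fun p => p.2 - p.1) ∪ QB ∪
        (range J ×ˢ SB).image (fun p => p.2 - 1 - p.1)))
    have h4 := (Finset.card_union_le ((range J ×ˢ TB).image (fun p => p.2 - p.1) ∪ QB)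
        ((range J ×ˢ SB).image (fun p => p.2 - 1 - p.1)))
    have h5 := (Finset.card_union_le ((range J ×ˢ TB).image (fun p => p.2 - p.1)) QB)
    have h6 : ((range J ×ˢ TB).image (fun p => p.2 - p.1)).card ≤ J * TB.card := by
      refine Finset.card_image_le.trans ?_
      rw [card_product, card_range]
    have h7 : ((range J ×ˢ SB).image (fun p => p.2 - 1 - p.1)).card ≤ J * SB.card := by
      refine Finset.card_image_le.trans ?_
      rw [card_product, card_range]
    rw [card_range] at h2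
    have h8 : N ≤ GS.card + (J + (J * TB.card + QB.card + J * SB.card)) := by omega
    exact_mod_cast h8
  -- each good stretch
  have hstretch : ∀ m ∈ GS, J * (q * μ) ≤ ∑ i ∈ range J, (T d s c (m + i) : ℝ) := by
    intro m hm
    rw [hGS, mem_filter] at hm
    obtain ⟨_, g1, g2, g3⟩ := hm
    obtain ⟨x, hx⟩ := g2
    have h1 := orbit_le (d := d) (s := s) (c := c) hq hM' g1 (by
      intro i hi
      have h2 := g3 i hi
      push Not at h2
      have h3 : E s (s - 1) (m + 1 + i) = 0 :=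
        le_antisymm h2.1 (E_nonneg hs0)
      rw [A_eq_of hs0 c h3]
      obtain ⟨w, hw⟩ := factorial_dvd hs0 h2.2
      rw [hw, ← mul_assoc, hqM]
      exact dvd_mul_right _ _) hx
    have h4 : ∑ i ∈ range J, (q : ℝ) * (rr M' (x * (d : ℤ) ^ i) : ℝ) ≤
        ∑ i ∈ range J, (T d s c (m + i) : ℝ) := by
      apply Finset.sum_le_sum
      intro i hi
      exact_mod_cast h1 i (mem_range.mp hi)
    rw [← Finset.mul_sum] at h4
    have h5 := mul_le_mul_of_nonneg_left (hH x) hqR.le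
    linarith
  have hsum1 : (GS.card : ℝ) * (J * (q * μ)) ≤ ∑ m ∈ GS, ∑ i ∈ range J, (T d s c (m + i) : ℝ) := by
    rw [← nsmul_eq_mul, ← Finset.sum_const]
    exact Finset.sum_le_sum hstretch
  have hsum2 : ∑ m ∈ GS, ∑ i ∈ range J, (T d s c (m + i) : ℝ) ≤
      J * ∑ m ∈ (range N).filter (fun m => q ≤ T d s c m), (T d s c m : ℝ) := by
    rw [Finset.sum_comm]
    have h1 : ∀ i ∈ range J, ∑ m ∈ GS, (T d s c (m + i) : ℝ) ≤
        ∑ m ∈ (range N).filter (fun m => q ≤ T d s c m), (T d s c m : ℝ) := by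
      intro i hi
      have h2 : ∑ m ∈ GS, (T d s c (m + i) : ℝ) = ∑ m ∈ GS.image (fun m => m + i),
          (T d s c m : ℝ) := by
        rw [Finset.sum_image]
        intro a _ b _ hab
        simp only at hab
        omega
      rw [h2]
      apply Finset.sum_le_sum_of_subset_of_nonneg
      · intro m hm
        rw [mem_image] at hm
        obtain ⟨a, ha, rfl⟩ := hm
        rw [hGS, mem_filter, mem_range] at ha
        rw [mem_filter, mem_range]
        have hi' := mem_range.mp hi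
        exact ⟨by omega, ha.2.1 i hi'⟩
      · intro m hm _
        rw [mem_filter] at hm
        have : (q : ℝ) ≤ T d s c m := by exact_mod_cast hm.2
        linarith
    refine (Finset.sum_le_sum h1).trans ?_
    rw [Finset.sum_const, card_range, nsmul_eq_mul]
  have hup := upper hd hs hz hc (fun m => q ≤ T d s c m) hKX
  rw [← hN] at hup
  have e4 : ∑ m ∈ range ((X + 1) ^ s), ((c s : ℝ) * E s s m + L s c m) ≤
      c s * SE + C0 s c * ((X : ℝ) + 1) ^ (s - 1) := by
    rw [Finset.sum_add_distrib, ← Finset.mul_sum]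
    have h1 := mul_le_mul_of_nonneg_left hSE hcR.le
    have h2 := sum_L_le hs0 c (X + 1) (by omega)
    have h2R : ∑ m ∈ range ((X + 1) ^ s), (L s c m : ℝ) ≤ C0 s c * ((X : ℝ) + 1) ^ (s - 1) := by
      exact_mod_cast h2
    linarith
  have e5 : ∑ m ∈ (range N).filter (fun m => q ≤ T d s c m), (T d s c m : ℝ) ≤
      1 / ((d : ℝ) - 1) * (c s * SE + C0 s c * ((X : ℝ) + 1) ^ (s - 1)) +
      (X : ℝ) ^ s * (C1 d s c * ((X : ℝ) ^ s + 2) ^ s * (Real.sqrt ((d : ℝ)⁻¹)) ^ K) := by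
    refine hup.trans ?_
    have h3 : (0 : ℝ) ≤ 1 / ((d : ℝ) - 1) := by
      apply div_nonneg zero_le_one; linarith
    have := mul_le_mul_of_nonneg_left e4 h3
    linarith
  have e6 : (GS.card : ℝ) * (q * μ) ≤
      1 / ((d : ℝ) - 1) * (c s * SE + C0 s c * ((X : ℝ) + 1) ^ (s - 1)) +
      (X : ℝ) ^ s * (C1 d s c * ((X : ℝ) ^ s + 2) ^ s * (Real.sqrt ((d : ℝ)⁻¹)) ^ K) := by
    have h1 := hsum1.trans hsum2
    have h2 : (J : ℝ) * ((GS.card : ℝ) * (q * μ)) ≤
        J * ∑ m ∈ (range N).filter (fun m => q ≤ T d s c m), (T d s c m : ℝ) := by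
      linarith
    exact (le_of_mul_le_mul_left h2 hJR).trans e5
  have hqμ : 0 ≤ (q : ℝ) * μ := mul_nonneg hqR.le hμ
  have e7 := mul_le_mul_of_nonneg_left hcount hqμ
  have e8 := mul_le_mul_of_nonneg_left (mul_le_mul_of_nonneg_left hTBc hJR.le) hqμ
  have e9 := mul_le_mul_of_nonneg_left hQBc hqμ
  have e10 := mul_le_mul_of_nonneg_left (mul_le_mul_of_nonneg_left hSBc hJR.le) hqμ
  have hNR : (N : ℝ) = (X : ℝ) ^ s := by rw [hN]; push_cast; ring
  rw [hNR] at e7
  linarith

end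

end Pool.Agent.Lib.A7
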