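import Pool.Agent.Lib.MP_a7a9f5_nt.Basic

set_option autoImplicit false

namespace Pool.Agent.Lib.A7

open Finset

lemma E_succ (s k m : ℕ) : E s (k + 1) m =
    ∑ p ∈ antidiagonal m, PowerSeries.coeff p.1 (Phi s) * E s k p.2 := by
  rw [E, pow_succ', PowerSeries.coeff_mul]
  rfl

lemma E_zero (s m : ℕ) : E s 0 m = if m = 0 then 1 else 0 := by
  rw [E, pow_zero, PowerSeries.coeff_one]

lemma coeff_Phi_nonneg (s m : ℕ) : 0 ≤ PowerSeries.coeff m (Phi s) := by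
  classical
  simp only [Phi, PowerSeries.coeff_mk]
  split_ifs <;> norm_num

lemma hasSum_Phi {s : ℕ} (hs : s ≠ 0) {x : ℝ} (h0 : 0 < x) (h1 : x < 1) :
    Summable (fun m => ((PowerSeries.coeff m (Phi s) : ℤ) : ℝ) * x ^ m) ∧
    ∑' m, ((PowerSeries.coeff m (Phi s) : ℤ) : ℝ) * x ^ m = ∑' n : ℕ, x ^ (n ^ s) := by
  classical
  constructor
  · refine Summable.of_nonneg_of_le (fun m => ?_) (fun m => ?_) (summable_geometric_of_lt_one h0.le h1)
    · have : (0 : ℝ) ≤ ((PowerSeries.coeff m (Phi s) : ℤ) : ℝ) := by exact_mod_cast coeff_Phi_nonneg s m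
      positivity
    · simp only [Phi, PowerSeries.coeff_mk]
      split_ifs
      · simp
      · simp; positivity
  · have hinj : Function.Injective (fun n : ℕ => n ^ s) := Nat.pow_left_injective hs
    rw [← hinj.tsum_eq (f := fun m => ((PowerSeries.coeff m (Phi s) : ℤ) : ℝ) * x ^ m)]
    · apply tsum_congr
      intro n
      simp only [Phi, PowerSeries.coeff_mk]
      rw [if_pos ⟨n, rfl⟩]
      simp
    · intro m hm
      simp only [Function.mem_support, ne_eq, Phi, PowerSeries.coeff_mk] at hm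
      by_contra hc
      apply hm
      rw [if_neg]
      · simp
      · rintro ⟨n, hn⟩
        exact hc ⟨n, hn⟩

lemma hasSum_E {s : ℕ} (hs : s ≠ 0) {x : ℝ} (h0 : 0 < x) (h1 : x < 1) (k : ℕ) :
    Summable (fun m => (E s k m : ℝ) * x ^ m) ∧
    ∑' m, (E s k m : ℝ) * x ^ m = (∑' n : ℕ, x ^ (n ^ s)) ^ k := by
  induction k with
  | zero =>
    have hE : (fun m => (E s 0 m : ℝ) * x ^ m) = fun m => if m = 0 then (1 : ℝ) else 0 := by
      funext m
      rw [E_zero]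
      split_ifs with h
      · simp [h]
      · simp
    rw [hE]
    refine ⟨(hasSum_ite_eq 0 (1 : ℝ)).summable, ?_⟩
    rw [tsum_ite_eq]
    simp
  | succ k ih =>
    obtain ⟨hS, hT⟩ := ih
    obtain ⟨hPS, hPT⟩ := hasSum_Phi hs h0 h1
    have hS' : Summable (fun m => ‖(E s k m : ℝ) * x ^ m‖) := hS.norm
    have hPS' : Summable (fun m => ‖((PowerSeries.coeff m (Phi s) : ℤ) : ℝ) * x ^ m‖) := hPS.norm
    have key : ∀ m, (E s (k + 1) m : ℝ) * x ^ m =
        ∑ p ∈ antidiagonal m, (((PowerSeries.coeff p.1 (Phi s) : ℤ) : ℝ) * x ^ p.1) *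
          ((E s k p.2 : ℝ) * x ^ p.2) := by
      intro m
      rw [E_succ]
      push_cast
      rw [Finset.sum_mul]
      apply Finset.sum_congr rfl
      intro p hp
      rw [← mem_antidiagonal.mp hp, pow_add]
      ring
    constructor
    · have := (summable_norm_sum_mul_antidiagonal_of_summable_norm hPS' hS').of_norm
      refine this.congr (fun m => ?_)
      rw [key m]
    · rw [pow_succ', ← hT, ← hPT, tsum_mul_tsum_eq_tsum_sum_antidiagonal_of_summable_norm hPS' hS']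
      exact tsum_congr key

/-- the coefficients of P applied to the generating series -/
noncomputable def A (s : ℕ) (c : ℕ → ℤ) (m : ℕ) : ℤ := ∑ k ∈ range (s + 1), c k * E s k m

/-- the integers d^m times the tail -/
noncomputable def T (d s : ℕ) (c : ℕ → ℤ) (m : ℕ) : ℤ :=
  - ∑ i ∈ range (m + 1), A s c i * (d : ℤ) ^ (m - i)

lemma T_succ (d s : ℕ) (c : ℕ → ℤ) (m : ℕ) : T d s c (m + 1) = d * T d s c m - A s c (m + 1) := by
  rw [T, T, Finset.sum_range_succ]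
  have : ∑ i ∈ range (m + 1), A s c i * (d : ℤ) ^ (m + 1 - i) =
      (d : ℤ) * ∑ i ∈ range (m + 1), A s c i * (d : ℤ) ^ (m - i) := by
    rw [Finset.mul_sum]
    apply Finset.sum_congr rfl
    intro i hi
    have hi' : i ≤ m := by simpa [Nat.lt_succ_iff] using hi
    rw [Nat.succ_sub hi', pow_succ]
    ring
  rw [this]
  simp
  ring

lemma summable_A {s : ℕ} (hs : s ≠ 0) (c : ℕ → ℤ) {x : ℝ} (h0 : 0 < x) (h1 : x < 1) :
    Summable (fun m => (A s c m : ℝ) * x ^ m) ∧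
    ∑' m, (A s c m : ℝ) * x ^ m = ∑ k ∈ range (s + 1), (c k : ℝ) * (∑' n : ℕ, x ^ (n ^ s)) ^ k := by
  have key : ∀ m, (A s c m : ℝ) * x ^ m =
      ∑ k ∈ range (s + 1), (c k : ℝ) * ((E s k m : ℝ) * x ^ m) := by
    intro m
    rw [A]
    push_cast
    rw [Finset.sum_mul]
    exact Finset.sum_congr rfl (fun k _ => by ring)
  have hsum : ∀ k ∈ range (s + 1), Summable (fun m => (c k : ℝ) * ((E s k m : ℝ) * x ^ m)) :=
    fun k _ => (hasSum_E hs h0 h1 k).1.mul_left _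
  constructor
  · exact (summable_sum hsum).congr (fun m => (key m).symm)
  · rw [tsum_congr key, Summable.tsum_finsetSum hsum]
    apply Finset.sum_congr rfl
    intro k _
    rw [tsum_mul_left, (hasSum_E hs h0 h1 k).2]

/-- the tail formula -/
lemma T_real {d s : ℕ} (hd : 2 ≤ d) (hs : s ≠ 0) (c : ℕ → ℤ)
    (hz : ∑' m, (A s c m : ℝ) * ((d : ℝ)⁻¹) ^ m = 0) (m : ℕ) :
    Summable (fun j => (A s c (m + 1 + j) : ℝ) * ((d : ℝ)⁻¹) ^ (j + 1)) ∧
    (T d s c m : ℝ) = ∑' j, (A s c (m + 1 + j) : ℝ) * ((d : ℝ)⁻¹) ^ (j + 1) := by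
  have hd0 : (0 : ℝ) < d := by positivity
  have hdne : (d : ℝ) ≠ 0 := hd0.ne'
  have hx0 : (0 : ℝ) < (d : ℝ)⁻¹ := by positivity
  have hx1 : (d : ℝ)⁻¹ < 1 := by
    apply inv_lt_one_of_one_lt₀
    have : (2 : ℝ) ≤ d := by exact_mod_cast hd
    linarith
  have hS := (summable_A hs c hx0 hx1).1
  have hS2 : Summable (fun j => (A s c (j + (m + 1)) : ℝ) * ((d : ℝ)⁻¹) ^ (j + (m + 1))) :=
    (summable_nat_add_iff (m + 1)).mpr hS
  have hrel : ∀ j, (A s c (m + 1 + j) : ℝ) * ((d : ℝ)⁻¹) ^ (j + 1) =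
      (d : ℝ) ^ m * ((A s c (j + (m + 1)) : ℝ) * ((d : ℝ)⁻¹) ^ (j + (m + 1))) := by
    intro j
    have h1 : m + 1 + j = j + (m + 1) := by ring
    rw [h1]
    have h2 : ((d : ℝ)⁻¹) ^ (j + (m + 1)) = ((d : ℝ)⁻¹) ^ (j + 1) * ((d : ℝ)⁻¹) ^ m := by
      rw [← pow_add]; ring_nf
    rw [h2]
    have h3 : (d : ℝ) ^ m * ((d : ℝ)⁻¹) ^ m = 1 := by
      rw [← mul_pow, mul_inv_cancel₀ hdne, one_pow]
    calc (A s c (j + (m + 1)) : ℝ) * ((d : ℝ)⁻¹) ^ (j + 1)
        = (A s c (j + (m + 1)) : ℝ) * ((d : ℝ)⁻¹) ^ (j + 1) * ((d : ℝ) ^ m * ((d : ℝ)⁻¹) ^ m) := by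
          rw [h3, mul_one]
      _ = _ := by ring
  constructor
  · exact (hS2.mul_left ((d : ℝ) ^ m)).congr (fun j => (hrel j).symm)
  · rw [tsum_congr hrel, tsum_mul_left]
    have hsplit := hS.sum_add_tsum_nat_add (m + 1)
    rw [hz] at hsplit
    have h4 : ∑' j, (A s c (j + (m + 1)) : ℝ) * ((d : ℝ)⁻¹) ^ (j + (m + 1)) =
        - ∑ i ∈ range (m + 1), (A s c i : ℝ) * ((d : ℝ)⁻¹) ^ i := by linarith
    rw [h4, T]
    push_cast
    rw [mul_neg, Finset.mul_sum]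
    congr 1
    apply Finset.sum_congr rfl
    intro i hi
    have hi' : i ≤ m := by simpa [Nat.lt_succ_iff] using hi
    have h5 : (d : ℝ) ^ m = (d : ℝ) ^ (m - i) * (d : ℝ) ^ i := by
      rw [← pow_add]; congr 1; omega
    have h6 : (d : ℝ) ^ i * ((d : ℝ)⁻¹) ^ i = 1 := by
      rw [← mul_pow, mul_inv_cancel₀ hdne, one_pow]
    calc (A s c i : ℝ) * (d : ℝ) ^ (m - i)
        = (A s c i : ℝ) * (d : ℝ) ^ (m - i) * ((d : ℝ) ^ i * ((d : ℝ)⁻¹) ^ i) := by
          rw [h6, mul_one]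
      _ = _ := by rw [h5]; ring

/-- the size of the coefficients -/
noncomputable def C0 (s : ℕ) (c : ℕ → ℤ) : ℤ := ∑ k ∈ range (s + 1), |c k|

lemma C0_nonneg (s : ℕ) (c : ℕ → ℤ) : 0 ≤ C0 s c := Finset.sum_nonneg (fun _ _ => abs_nonneg _)

/-- the lower order part -/
noncomputable def L (s : ℕ) (c : ℕ → ℤ) (m : ℕ) : ℤ := ∑ k ∈ range s, |c k| * E s k m

lemma L_nonneg {s : ℕ} (hs : s ≠ 0) (c : ℕ → ℤ) (m : ℕ) : 0 ≤ L s c m :=
  Finset.sum_nonneg (fun _ _ => mul_nonneg (abs_nonneg _) (E_nonneg hs))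

lemma A_le {s : ℕ} (hs : s ≠ 0) (c : ℕ → ℤ) (m : ℕ) : A s c m ≤ c s * E s s m + L s c m := by
  rw [A, Finset.sum_range_succ, L, add_comm]
  apply add_le_add le_rfl
  exact Finset.sum_le_sum (fun k _ => mul_le_mul_of_nonneg_right (le_abs_self _) (E_nonneg hs))

lemma E_le_pow {s k m : ℕ} (hs : s ≠ 0) (hk : k ≤ s) : E s k m ≤ ((m : ℤ) + 1) ^ s := by
  have h1 : (1 : ℤ) ≤ (m : ℤ) + 1 := by omega
  cases k with
  | zero =>
    rw [E_zero]
    split_ifs
    · exact one_le_pow₀ h1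
    · positivity
  | succ k =>
    have h2 := E_le (s := s) (k := k) hs (lt_succ_pow hs m)
    push_cast at h2
    refine h2.trans ?_
    exact pow_le_pow_right₀ h1 (by omega)

lemma abs_A_le {s : ℕ} (hs : s ≠ 0) (c : ℕ → ℤ) (m : ℕ) : |A s c m| ≤ C0 s c * ((m : ℤ) + 1) ^ s := by
  rw [A, C0, Finset.sum_mul]
  refine (Finset.abs_sum_le_sum_abs _ _).trans (Finset.sum_le_sum (fun k hk => ?_))
  rw [abs_mul, abs_of_nonneg (E_nonneg hs)]
  exact mul_le_mul_of_nonneg_left (E_le_pow hs (by simpa [Nat.lt_succ_iff] using hk)) (abs_nonneg _)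

lemma sum_L_le {s : ℕ} (hs : s ≠ 0) (c : ℕ → ℤ) (Y : ℕ) (hY : 1 ≤ Y) :
    ∑ m ∈ range (Y ^ s), L s c m ≤ C0 s c * (Y : ℤ) ^ (s - 1) := by
  simp only [L]
  rw [Finset.sum_comm]
  have h1 : ∀ k ∈ range s, ∑ m ∈ range (Y ^ s), |c k| * E s k m ≤ |c k| * (Y : ℤ) ^ (s - 1) := by
    intro k hk
    rw [← Finset.mul_sum]
    apply mul_le_mul_of_nonneg_left _ (abs_nonneg _)
    refine (sum_E_le hs).trans ?_
    have hk' : k < s := by simpa using hk
    exact pow_le_pow_right₀ (by exact_mod_cast hY) (by omega)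
  refine (Finset.sum_le_sum h1).trans ?_
  rw [← Finset.sum_mul]
  apply mul_le_mul_of_nonneg_right _ (by positivity)
  rw [C0, Finset.sum_range_succ]
  have := abs_nonneg (c s)
  linarith

/-- off the sums of s - 1 powers -/
lemma A_eq_of {s : ℕ} (hs : s ≠ 0) (c : ℕ → ℤ) {m : ℕ} (h : E s (s - 1) m = 0) :
    A s c m = c s * E s s m := by
  rw [A, Finset.sum_range_succ, Finset.sum_eq_zero, zero_add]
  intro k hk
  have hk' : k < s := by simpa using hk
  rw [E_zero_of hs (by omega : k ≤ s - 1) h, mul_zero]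

end Pool.Agent.Lib.A7
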